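import Mathlib

/-!
# Explicit points, submersive tuples, read-once programs
-/

namespace Pool.Agent.W943.Cut

open MvPolynomial

/-- The point with seeds `y, z ∈ ℕ^s`: its `i`-th coordinate is
`∑_l y_l ∏_{k ≠ i} (z_l - k)` (the Shpilka–Volkovich generator with nodes `0, …, n-1`). -/
def point (n s : ℕ) (y z : Fin s → ℕ) : Fin n → ℤ :=
  fun i => ∑ l : Fin s, (y l : ℤ) * ∏ k ∈ Finset.univ.erase i, ((z l : ℤ) - (k.val : ℤ))

/-- The explicit set of all points with seeds `y ∈ {0,…,D}^s`, `z ∈ {0,…,nD}^s`. -/
def points (n s D : ℕ) : Finset (Fin n → ℤ) :=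
  ((Fintype.piFinset fun _ : Fin s => Finset.range (D + 1)) ×ˢ
    (Fintype.piFinset fun _ : Fin s => Finset.range (n * D + 1))).image
    fun yz => point n s yz.1 yz.2

/-- The polynomials `φ_1, …, φ_m` in `n` variables have a Jacobian matrix with a polynomial right
inverse: `∑_l D_{il} ∂φ_k/∂x_l = δ_{ik}` for some polynomials `D_{il}`. Examples are linearly
independent affine forms and coordinates of polynomial automorphisms. -/
def Submersive {m n : ℕ} (φ : Fin m → MvPolynomial (Fin n) ℂ) : Prop :=
  ∃ D : Fin m → Fin n → MvPolynomial (Fin n) ℂ,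
    ∀ i k, ∑ l, D i l * pderiv l (φ k) = if i = k then 1 else 0

/-- The value `u ⬝ M_1(x_{i_1}) ⋯ M_l(x_{i_l}) ⬝ v` of the program of width `W` given by the list
`(i_1, M_1), …, (i_l, M_l)` of variables and `W × W` matrices of univariate polynomials of arbitrary
degree. If the variables are distinct, this is a read-once oblivious program (ROABP). -/
noncomputable def prog {n W : ℕ} (u v : Fin W → ℂ)
    (L : List (Fin n × Matrix (Fin W) (Fin W) (Polynomial ℂ))) : MvPolynomial (Fin n) ℂ :=
  ∑ a, ∑ b, C (u a) *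
    (L.map fun p => p.2.map (Polynomial.aeval (X p.1 : MvPolynomial (Fin n) ℂ))).prod a b * C (v b)

/-- The matrix `M` of univariate polynomials is `A + P ⬝ R`, where `A` (`W × W`) and `P` (`W × e`)
are constant and `R` (`e × W`) is arbitrary. Every `W × W` matrix satisfies this for `e = W`. -/
def RankLe {W : ℕ} (e : ℕ) (M : Matrix (Fin W) (Fin W) (Polynomial ℂ)) : Prop :=
  ∃ (A : Fin W → Fin W → ℂ) (P : Fin W → Fin e → ℂ) (R : Fin e → Fin W → Polynomial ℂ),
    ∀ a b, M a b = Polynomial.C (A a b) + ∑ j, Polynomial.C (P a j) * R j b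

open Classical in
/-- The number of matrices in the list with determinant zero. -/
noncomputable def singular {n W : ℕ}
    (L : List (Fin n × Matrix (Fin W) (Fin W) (Polynomial ℂ))) : ℕ :=
  L.countP fun p => decide (p.2.det = 0)

end Pool.Agent.W943.Cut
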