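import Mathlib
import Pool.Agent.W943.Cut.Def

/-!
# A class of polynomials with few seeds
-/

namespace Pool.Agent.W943.Cut

open MvPolynomial

/-- The derivative of `P` along the polynomial vector field `V`. -/
noncomputable def field {n : ℕ} (V : Fin n → MvPolynomial (Fin n) ℂ)
    (P : MvPolynomial (Fin n) ℂ) : MvPolynomial (Fin n) ℂ := ∑ l, V l * pderiv l P

/-- `Cls n s f`: the polynomial `f` in `n` variables is in the class with `s` seed pairs. -/
inductive Cls : (n : ℕ) → ℕ → MvPolynomial (Fin n) ℂ → Prop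
  /-- all nonzero polynomials in `n` variables, with `n` seed pairs -/
  | few {n : ℕ} {f : MvPolynomial (Fin n) ℂ} (h0 : f ≠ 0) : Cls n n f
  /-- nonzero polynomials of total degree at most `d` -/
  | low {n d : ℕ} {f : MvPolynomial (Fin n) ℂ} (h0 : f ≠ 0) (hd : f.totalDegree ≤ d) : Cls n d f
  | mono {n s s' : ℕ} {f : MvPolynomial (Fin n) ℂ} (h : Cls n s f) (hs : s ≤ s') : Cls n s' f
  | mul {n s : ℕ} {f g : MvPolynomial (Fin n) ℂ} (hf : Cls n s f) (hg : Cls n s g) :
      Cls n s (f * g)
  | factor {n s : ℕ} {f g : MvPolynomial (Fin n) ℂ} (hg : Cls n s g) (h : f ∣ g) : Cls n s f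
  /-- polynomials with a derivative along a polynomial vector field in the class -/
  | primitive {n s : ℕ} {f : MvPolynomial (Fin n) ℂ} (V : Fin n → MvPolynomial (Fin n) ℂ)
      (h : Cls n s (field V f)) : Cls n (s + 1) f
  /-- sums of `r` products `g_a h_a`, where `g_a` depends on the variables in `Z` only and `h_a`
  on the other ones, if all nontrivial linear combinations of the `g_a` and one `h_a` are in the
  class -/
  | cut {n s r : ℕ} (Z : Set (Fin n)) (g h : Fin r → MvPolynomial (Fin n) ℂ)
      (hg : ∀ a, g a ∈ supported ℂ Z) (hh : ∀ a, h a ∈ supported ℂ Zᶜ)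
      (hc : ∀ c : Fin r → ℂ, c ≠ 0 → Cls n s (∑ a, C (c a) * g a))
      (α : Fin r) (hα : Cls n s (h α)) : Cls n (s + (r - 1)) (∑ a, g a * h a)
  /-- values of read-once programs of width `W` all of whose matrices except possibly the first
  have a nonzero determinant -/
  | invertible {n W : ℕ} (L : List (Fin n × Matrix (Fin W) (Fin W) (Polynomial ℂ)))
      (hd : (L.map Prod.fst).Nodup) (hL : ∀ p ∈ L.tail, p.2.det ≠ 0) (u v : Fin W → ℂ)
      (h0 : prog u v L ≠ 0) : Cls n (1 + W * (W - 1) / 2) (prog u v L)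
  /-- The composition `F(φ_1, …, φ_m)`, where `F` is in the class and
  `∑_l D_{il} ∂φ_k/∂x_l = δ_{ik} Δ` for some polynomials `D_{il}` and some `Δ` in the class. For
  example `Δ` may be a maximal minor of the Jacobian matrix of `φ`, and `Δ = 1` is possible if the
  `φ_k` are linearly independent affine forms or coordinates of a polynomial automorphism. -/
  | comp {n m s s' : ℕ} {F : MvPolynomial (Fin m) ℂ} (hF : Cls m s' F)
      (φ : Fin m → MvPolynomial (Fin n) ℂ) (D : Fin m → Fin n → MvPolynomial (Fin n) ℂ)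
      {Δ : MvPolynomial (Fin n) ℂ}
      (hD : ∀ i k, ∑ l, D i l * pderiv l (φ k) = if i = k then Δ else 0) (hΔ : Cls n s Δ) :
      Cls n (s + s') (aeval φ F)

end Pool.Agent.W943.Cut
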