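import Mathlib
import Pool.Agent.W943.Orb7

/-!
A polynomial substitution which kills all derivatives of order less than `r` of a sum of `r`
products in separate variables kills a combination of the first factors, or all the second ones.
-/

namespace Pool.Agent.W943

open MvPolynomial Pool.Agent.H530R2

section aux

variable {F : Type*} [Field F] {n : ℕ} {τ : Type*}

theorem eq_C_of_pderiv' [CharZero F] {Q : MvPolynomial τ F} (h : ∀ k, pderiv k Q = 0) :
    Q = C (coeff 0 Q) := by
  classical
  ext m
  rw [coeff_C]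
  split_ifs with hm
  · rw [← hm]
  · obtain ⟨i, hi⟩ : ∃ i, m i ≠ 0 := by
      by_contra hc
      push Not at hc
      apply hm
      ext i
      rw [hc i]; rfl
    set m' := m - Finsupp.single i 1 with hm'
    have h1 : m' + Finsupp.single i 1 = m := by
      rw [hm']
      apply tsub_add_cancel_of_le
      rw [Finsupp.single_le_iff]
      omega
    have h2 := coeff_pderiv (i := i) Q m'
    rw [h i, coeff_zero, h1] at h2
    rcases mul_eq_zero.1 h2.symm with h3 | h3
    · exact h3
    · exfalso
      have : ((m' i + 1 : ℕ) : F) = 0 := by push_cast; exact h3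
      exact Nat.succ_ne_zero (m' i) (by exact_mod_cast this)

theorem totalDegree_pderiv_le' (i : τ) (Q : MvPolynomial τ F) :
    (pderiv i Q).totalDegree ≤ Q.totalDegree - 1 := by
  classical
  unfold totalDegree
  refine Finset.sup_le fun m hm => ?_
  rw [mem_support_iff, coeff_pderiv] at hm
  have h1 : coeff (m + Finsupp.single i 1) Q ≠ 0 := left_ne_zero_of_mul hm
  have h2 := le_totalDegree (mem_support_iff.2 h1)
  have h3 : ((m + Finsupp.single i 1).sum fun _ e => e) = (m.sum fun _ e => e) + 1 := by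
    rw [Finsupp.sum_add_index' (fun _ => rfl) (fun _ _ _ => rfl), Finsupp.sum_single_index rfl]
  rw [h3] at h2
  unfold totalDegree at h2
  omega

/-- the chain rule for an algebra homomorphism into a polynomial ring -/
theorem pderiv_algHom (ψ : MvPolynomial (Fin n) F →ₐ[F] MvPolynomial τ F) (t : τ)
    (Q : MvPolynomial (Fin n) F) :
    pderiv t (ψ Q) = ∑ i, ψ (pderiv i Q) * pderiv t (ψ (X i)) := by
  classical
  induction Q using MvPolynomial.induction_on with
  | C r =>
    have h1 : ψ (C r) = C r := by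
      rw [← MvPolynomial.algebraMap_eq, AlgHom.commutes]; rfl
    rw [h1, pderiv_C]
    simp
  | add p q hp hq =>
    rw [map_add, map_add, hp, hq, ← Finset.sum_add_distrib]
    apply Finset.sum_congr rfl
    intro k _
    rw [map_add, map_add, add_mul]
  | mul_X p i hp =>
    rw [map_mul, pderiv_mul, hp]
    have h1 : ∀ k, ψ (pderiv k (p * X i)) * pderiv t (ψ (X k)) =
        ψ (pderiv k p) * pderiv t (ψ (X k)) * ψ (X i) +
          ψ p * (ψ (pderiv k (X i : MvPolynomial (Fin n) F)) * pderiv t (ψ (X k))) := by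
      intro k
      rw [pderiv_mul, map_add, map_mul, map_mul]
      ring
    simp only [h1]
    rw [Finset.sum_add_distrib, Finset.sum_mul, ← Finset.mul_sum]
    congr 2
    rw [Finset.sum_eq_single i]
    · rw [pderiv_X_self, map_one, one_mul]
    · intro k _ hk
      rw [pderiv_X_of_ne (Ne.symm hk), map_zero, zero_mul]
    · intro h; exact absurd (Finset.mem_univ _) h

end aux

section p2

variable {F : Type*} [Field F] [CharZero F] {n r : ℕ} {τ : Type*}
  (ψ : MvPolynomial (Fin n) F →ₐ[F] MvPolynomial τ F) (g : Fin r → MvPolynomial (Fin n) F)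

set_option linter.unusedSectionVars false

/-- the relations among the images of the derivatives of order at most `k` -/
noncomputable def relN (k : ℕ) :
    Submodule (FractionRing (MvPolynomial τ F)) (Fin r → FractionRing (MvPolynomial τ F)) where
  carrier := {μ | ∀ L : List (Fin n), L.length ≤ k →
    ∑ a, μ a * algebraMap (MvPolynomial τ F) (FractionRing (MvPolynomial τ F)) (ψ (dl L (g a))) = 0}
  zero_mem' := by intro L _; simp
  add_mem' := by
    intro μ ν hμ hν L hL
    simp only [Pi.add_apply, add_mul, Finset.sum_add_distrib]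
    rw [hμ L hL, hν L hL, add_zero]
  smul_mem' := by
    intro c μ hμ L hL
    simp only [Pi.smul_apply, smul_eq_mul, mul_assoc, ← Finset.mul_sum]
    rw [hμ L hL, mul_zero]

theorem mem_relN {k : ℕ} {μ : Fin r → FractionRing (MvPolynomial τ F)} :
    μ ∈ relN ψ g k ↔ ∀ L : List (Fin n), L.length ≤ k →
      ∑ a, μ a * algebraMap (MvPolynomial τ F) (FractionRing (MvPolynomial τ F))
        (ψ (dl L (g a))) = 0 := Iff.rfl

theorem mem_relN_int {k : ℕ} {l : Fin r → MvPolynomial τ F} :
    (fun a => algebraMap (MvPolynomial τ F) (FractionRing (MvPolynomial τ F)) (l a)) ∈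
      relN ψ g k ↔ ∀ L : List (Fin n), L.length ≤ k → ∑ a, l a * ψ (dl L (g a)) = 0 := by
  rw [mem_relN]
  refine forall_congr' fun L => imp_congr_right fun _ => ?_
  simp only [← map_mul, ← map_sum]
  exact map_eq_zero_iff _ (IsFractionRing.injective _ _)

theorem relN_anti (k : ℕ) : relN ψ g (k + 1) ≤ relN ψ g k :=
  fun _ h L hL => h L (by omega)

theorem rel_pderiv {k : ℕ} {l : Fin r → MvPolynomial τ F}
    (h : ∀ L : List (Fin n), L.length ≤ k + 1 → ∑ a, l a * ψ (dl L (g a)) = 0) (t : τ) :
    ∀ L : List (Fin n), L.length ≤ k → ∑ a, pderiv t (l a) * ψ (dl L (g a)) = 0 := by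
  intro L hL
  have h1 := congrArg (pderiv t) (h L (by omega))
  rw [map_sum, map_zero] at h1
  simp only [pderiv_mul] at h1
  rw [Finset.sum_add_distrib] at h1
  have h2 : ∑ a, l a * pderiv t (ψ (dl L (g a))) = 0 := by
    have h0 : ∀ a, l a * pderiv t (ψ (dl L (g a))) =
        ∑ i, l a * (ψ (pderiv i (dl L (g a))) * pderiv t (ψ (X i))) := by
      intro a
      rw [pderiv_algHom ψ t, Finset.mul_sum]
    simp only [h0]
    rw [Finset.sum_comm]
    apply Finset.sum_eq_zero
    intro i _
    have h3' : (L ++ [i]).length ≤ k + 1 := by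
      rw [List.length_append, List.length_singleton]
      omega
    have h3 := h (L ++ [i]) h3'
    have h4 : ∀ a, dl (L ++ [i]) (g a) = pderiv i (dl L (g a)) := by
      intro a
      rw [dl_append]; rfl
    simp only [h4] at h3
    have h5 : ∑ a, l a * (ψ (pderiv i (dl L (g a))) * pderiv t (ψ (X i))) =
        (∑ a, l a * ψ (pderiv i (dl L (g a)))) * pderiv t (ψ (X i)) := by
      rw [Finset.sum_mul]
      exact Finset.sum_congr rfl fun a _ => by ring
    rw [h5, h3, zero_mul]
  rw [h2, add_zero] at h1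
  exact h1

theorem rel_stable {k : ℕ} (hst : relN ψ g k ≤ relN ψ g (k + 1))
    (hg : ∀ c : Fin r → F, c ≠ 0 → ψ (∑ a, C (c a) * g a) ≠ 0) (N : ℕ) :
    ∀ l : Fin r → MvPolynomial τ F, (∀ a, (l a).totalDegree ≤ N) →
      (∀ L : List (Fin n), L.length ≤ k → ∑ a, l a * ψ (dl L (g a)) = 0) → l = 0 := by
  have hconst : ∀ l : Fin r → MvPolynomial τ F, (∀ a, l a = C (coeff 0 (l a))) →
      (∀ L : List (Fin n), L.length ≤ k → ∑ a, l a * ψ (dl L (g a)) = 0) → l = 0 := by
    intro l hl h
    by_contra hne
    have h1 : (fun a => coeff 0 (l a)) ≠ 0 := by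
      intro h0
      apply hne
      funext a
      rw [hl a, congrFun h0 a]
      simp
    apply hg _ h1
    rw [map_sum]
    have h2 := h [] (by simp)
    rw [← h2]
    apply Finset.sum_congr rfl
    intro a _
    rw [map_mul, dl_nil]
    congr 1
    rw [← MvPolynomial.algebraMap_eq, AlgHom.commutes]
    exact (hl a).symm
  induction N with
  | zero =>
    intro l hd h
    refine hconst l (fun a => ?_) h
    exact totalDegree_eq_zero_iff_eq_C.1 (Nat.le_zero.1 (hd a))
  | succ N ih =>
    intro l hd h
    refine hconst l (fun a => ?_) h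
    apply eq_C_of_pderiv'
    intro t
    have h1 : ∀ L : List (Fin n), L.length ≤ k + 1 → ∑ a, l a * ψ (dl L (g a)) = 0 :=
      (mem_relN_int ψ g).1 (hst ((mem_relN_int ψ g).2 h))
    have h2 := ih (fun a => pderiv t (l a)) (fun a => by
      have := totalDegree_pderiv_le' t (l a)
      have := hd a
      omega) (rel_pderiv ψ g h1 t)
    exact congrFun h2 a

theorem relN_eq_bot_of_stable {k : ℕ} (hst : relN ψ g k ≤ relN ψ g (k + 1))
    (hg : ∀ c : Fin r → F, c ≠ 0 → ψ (∑ a, C (c a) * g a) ≠ 0) : relN ψ g k = ⊥ := by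
  rw [eq_bot_iff]
  intro μ hμ
  rw [Submodule.mem_bot]
  obtain ⟨b, hb⟩ := IsLocalization.exist_integer_multiples_of_finite
    (nonZeroDivisors (MvPolynomial τ F)) μ
  choose l hl using hb
  have h1 : (fun a => algebraMap (MvPolynomial τ F) (FractionRing (MvPolynomial τ F)) (l a)) ∈
      relN ψ g k := by
    have : (fun a => algebraMap (MvPolynomial τ F) (FractionRing (MvPolynomial τ F)) (l a)) =
        (algebraMap (MvPolynomial τ F) (FractionRing (MvPolynomial τ F)) (b : _)) • μ := by
      funext a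
      rw [hl a, Algebra.smul_def]; rfl
    rw [this]
    exact Submodule.smul_mem _ _ hμ
  have h2 := rel_stable ψ g hst hg (Finset.univ.sup fun a => (l a).totalDegree) l
    (fun a => Finset.le_sup (f := fun a => (l a).totalDegree) (Finset.mem_univ a))
    ((mem_relN_int ψ g).1 h1)
  funext a
  have h3 := hl a
  rw [h2, Pi.zero_apply, map_zero, Algebra.smul_def] at h3
  rcases mul_eq_zero.1 h3.symm with h4 | h4
  · exfalso
    have h5 := (map_eq_zero_iff _ (IsFractionRing.injective (MvPolynomial τ F)
      (FractionRing (MvPolynomial τ F)))).1 h4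
    exact nonZeroDivisors.coe_ne_zero b h5
  · exact h4

theorem relN_finrank (hg : ∀ c : Fin r → F, c ≠ 0 → ψ (∑ a, C (c a) * g a) ≠ 0) (hr : 0 < r)
    (k : ℕ) : Module.finrank (FractionRing (MvPolynomial τ F)) (relN ψ g k) ≤ r - 1 - k := by
  induction k with
  | zero =>
    have hlt : relN ψ g 0 < ⊤ := by
      rw [lt_top_iff_ne_top]
      intro htop
      have h1 : (fun a : Fin r => algebraMap (MvPolynomial τ F)
          (FractionRing (MvPolynomial τ F)) ((Pi.single ⟨0, hr⟩ 1 : Fin r → MvPolynomial τ F) a)) ∈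
          relN ψ g 0 := by rw [htop]; trivial
      have h2 := (mem_relN_int ψ g).1 h1 [] (by simp)
      rw [Finset.sum_eq_single ⟨0, hr⟩] at h2
      · rw [Pi.single_eq_same, one_mul, dl_nil] at h2
        apply hg (Pi.single ⟨0, hr⟩ 1)
        · intro h3
          have := congrFun h3 ⟨0, hr⟩
          rw [Pi.single_eq_same] at this
          exact one_ne_zero this
        · rw [Finset.sum_eq_single ⟨0, hr⟩]
          · rw [Pi.single_eq_same, map_one, one_mul, h2]
          · intro b _ hb
            rw [Pi.single_eq_of_ne hb, map_zero, zero_mul]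
          · intro h; exact absurd (Finset.mem_univ _) h
      · intro b _ hb
        rw [Pi.single_eq_of_ne hb, zero_mul]
      · intro h; exact absurd (Finset.mem_univ _) h
    have h3 := Submodule.finrank_lt hlt.ne
    rw [Module.finrank_fin_fun] at h3
    omega
  | succ k ih =>
    by_cases hst : relN ψ g k ≤ relN ψ g (k + 1)
    · have h1 := relN_eq_bot_of_stable ψ g hst hg
      have h2 : relN ψ g (k + 1) = ⊥ := by
        rw [eq_bot_iff, ← h1]; exact relN_anti ψ g k
      rw [h2, finrank_bot]
      omega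
    · have h1 : relN ψ g (k + 1) < relN ψ g k :=
        lt_of_le_not_ge (relN_anti ψ g k) hst
      have h2 := Submodule.finrank_lt_finrank_of_lt h1
      omega

theorem p2 (hg : ∀ c : Fin r → F, c ≠ 0 → ψ (∑ a, C (c a) * g a) ≠ 0)
    (h : Fin r → MvPolynomial (Fin n) F)
    (hL : ∀ L : List (Fin n), L.length ≤ r - 1 → ψ (∑ a, dl L (g a) * h a) = 0) :
    ∀ a, ψ (h a) = 0 := by
  intro a
  have hr : 0 < r := Fin.pos a
  have h1 := relN_finrank ψ g hg hr (r - 1)
  rw [Nat.sub_self] at h1
  have h2 : relN ψ g (r - 1) = ⊥ := Submodule.finrank_eq_zero.1 (Nat.le_zero.1 h1)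
  have h3 : (fun a => algebraMap (MvPolynomial τ F) (FractionRing (MvPolynomial τ F))
      (ψ (h a))) ∈ relN ψ g (r - 1) := by
    rw [mem_relN_int]
    intro L hLl
    rw [← hL L hLl, map_sum]
    exact Finset.sum_congr rfl fun a _ => by rw [map_mul, mul_comm]
  rw [h2, Submodule.mem_bot] at h3
  exact (map_eq_zero_iff _ (IsFractionRing.injective (MvPolynomial τ F)
    (FractionRing (MvPolynomial τ F)))).1 (congrFun h3 a)

end p2

section chain

variable {F : Type*} [Field F] {n m : ℕ}

/-- all ideals of the chain are kernels of homomorphisms to polynomial rings -/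
def DChain.Uni (V : DChain F n) : Prop :=
  ∀ j, ∃ (τ : Type) (ψ : MvPolynomial (Fin n) F →ₐ[F] MvPolynomial τ F), V.I j = RingHom.ker ψ

theorem genChain_uni (a : Fin n → F) (ha : Function.Injective a) : (genChain a ha).Uni :=
  fun j => ⟨Fin j ⊕ Fin j, gen a j, rfl⟩

theorem DChain.pull_uni (V : DChain F n) (hV : V.Uni) (φ : Fin m → MvPolynomial (Fin n) F)
    (D : Fin m → Fin n → MvPolynomial (Fin n) F) (Δ : MvPolynomial (Fin n) F)
    (hD : ∀ i k, ∑ l, D i l * pderiv l (φ k) = if i = k then Δ else 0) (s : ℕ)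
    (hΔ : Δ ∉ V.I s) : (V.pull φ D Δ hD s hΔ).Uni := by
  intro j
  obtain ⟨τ, ψ, hψ⟩ := hV (s + j)
  refine ⟨τ, ψ.comp (aeval φ), ?_⟩
  show Ideal.comap (aeval φ : MvPolynomial (Fin m) F →ₐ[F] MvPolynomial (Fin n) F) (V.I (s + j)) = _
  rw [hψ]
  ext Q
  rw [Ideal.mem_comap, RingHom.mem_ker, RingHom.mem_ker]
  rfl

theorem DChain.dl_mem (V : DChain F n) (L : List (Fin n)) : ∀ {j : ℕ}
    {Q : MvPolynomial (Fin n) F}, Q ∈ V.I (j + L.length) → dl L Q ∈ V.I j := by
  induction L with
  | nil => intro j Q h; exact h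
  | cons i L ih =>
    intro j Q h
    rw [dl_cons]
    apply ih
    exact V.der _ _ _ h

theorem dl_sum {ι : Type*} (L : List (Fin n)) (s : Finset ι)
    (f : ι → MvPolynomial (Fin n) F) : dl L (∑ a ∈ s, f a) = ∑ a ∈ s, dl L (f a) := by
  classical
  induction s using Finset.induction_on with
  | empty => rw [Finset.sum_empty, Finset.sum_empty, dl_zero]
  | insert a s ha ih => rw [Finset.sum_insert ha, Finset.sum_insert ha, dl_add, ih]

theorem dl_mul_of_supported (Z : Set (Fin n)) {h : MvPolynomial (Fin n) F}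
    (hh : h ∈ supported F Zᶜ) (L : List (Fin n)) : (∀ i ∈ L, i ∈ Z) →
    ∀ g : MvPolynomial (Fin n) F, dl L (g * h) = dl L g * h := by
  induction L with
  | nil => intro _ g; rfl
  | cons i L ih =>
    intro hL g
    have h1 : pderiv i h = 0 := by
      apply pderiv_eq_zero_of_notMem_vars
      intro hi
      exact (mem_supported.1 hh) hi (hL i List.mem_cons_self)
    rw [dl_cons, pderiv_mul, h1, mul_zero, add_zero,
      ih (fun k hk => hL k (List.mem_cons_of_mem _ hk))]
    rfl

theorem dl_eq_zero_of_supported (Z : Set (Fin n)) (L : List (Fin n)) :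
    ∀ {g : MvPolynomial (Fin n) F}, g ∈ supported F Z → (∃ i ∈ L, i ∉ Z) → dl L g = 0 := by
  induction L with
  | nil => intro g _ h; obtain ⟨i, hi, _⟩ := h; exact absurd hi List.not_mem_nil
  | cons k L ih =>
    intro g hg h
    rw [dl_cons]
    by_cases hk : k ∈ Z
    · obtain ⟨i, hi, hiZ⟩ := h
      rcases List.mem_cons.1 hi with rfl | hi
      · exact absurd hk hiZ
      · exact ih (pderiv_mem_supported k hg) ⟨i, hi, hiZ⟩
    · have h1 : pderiv k g = 0 := by
        apply pderiv_eq_zero_of_notMem_vars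
        intro hi
        exact hk ((mem_supported.1 hg) hi)
      rw [h1, dl_zero]

/-- A sum of `r` products in separate variables costs `r - 1` steps. -/
theorem DChain.cut [CharZero F] (V : DChain F n) (hV : V.Uni) {r j : ℕ} (Z : Set (Fin n))
    (g h : Fin r → MvPolynomial (Fin n) F) (hg : ∀ a, g a ∈ supported F Z)
    (hh : ∀ a, h a ∈ supported F Zᶜ) (hf : ∑ a, g a * h a ∈ V.I (j + (r - 1)))
    (hc : ∀ c : Fin r → F, c ≠ 0 → ∑ a, C (c a) * g a ∉ V.I j) (a : Fin r) :
    h a ∈ V.I j := by
  obtain ⟨τ, ψ, hψ⟩ := hV j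
  rw [hψ, RingHom.mem_ker]
  refine p2 ψ g (fun c hc0 h0 => hc c hc0 ?_) h (fun L hL => ?_) a
  · rw [hψ, RingHom.mem_ker]
    exact h0
  · have h1 : ∑ a, dl L (g a) * h a ∈ V.I j := by
      by_cases hLZ : ∀ i ∈ L, i ∈ Z
      · have h2 : dl L (∑ a, g a * h a) ∈ V.I j :=
          V.dl_mem L (V.mono (by omega) hf)
        rw [dl_sum] at h2
        have h3 : ∀ a, dl L (g a * h a) = dl L (g a) * h a :=
          fun a => dl_mul_of_supported Z (hh a) L hLZ (g a)
        simpa only [h3] using h2
      · push Not at hLZ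
        have h2 : ∀ a, dl L (g a) = 0 := fun a => dl_eq_zero_of_supported Z L (hg a) hLZ
        simp only [h2, zero_mul, Finset.sum_const_zero]
        exact (V.I j).zero_mem
    rw [hψ, RingHom.mem_ker] at h1
    exact h1

end chain

end Pool.Agent.W943
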