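import Mathlib
import Pool.Agent.W943.Cut.C1
import Pool.Agent.W943.Orb8

/-!
Values of read-once programs given by lists of layers.
-/

namespace Pool.Agent.W943.Cut

open MvPolynomial Pool.Agent.H530R2 Pool.Agent.W943

section ev

variable {n : ℕ}

theorem pderiv_eq_zero_of_supported {Z : Set (Fin n)} {f : MvPolynomial (Fin n) ℂ}
    (hf : f ∈ supported ℂ Z) {i : Fin n} (hi : i ∉ Z) : pderiv i f = 0 := by
  apply pderiv_eq_zero_of_notMem_vars
  intro h
  exact hi ((mem_supported.1 hf) h)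

theorem supported_of_pderiv_eq_zero {f : MvPolynomial (Fin n) ℂ} {i : Fin n}
    (h : pderiv i f = 0) : f ∈ supported ℂ ({i}ᶜ : Set (Fin n)) := by
  classical
  rw [mem_supported]
  intro k hk hki
  rw [Set.mem_singleton_iff] at hki
  subst hki
  have hk' : k ∈ f.vars := hk
  rw [mem_vars_iff_mem_support] at hk'
  obtain ⟨m, hm, hkm⟩ := hk'
  rw [Finsupp.mem_support_iff] at hkm
  rw [mem_support_iff] at hm
  have h1 : (m - Finsupp.single k 1) + Finsupp.single k 1 = m := by
    apply tsub_add_cancel_of_le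
    rw [Finsupp.single_le_iff]
    omega
  have h2 := coeff_pderiv (i := k) f (m - Finsupp.single k 1)
  rw [h, coeff_zero, h1] at h2
  rcases mul_eq_zero.1 h2.symm with h3 | h3
  · exact hm h3
  · have : (((m - Finsupp.single k 1 : Fin n →₀ ℕ) k + 1 : ℕ) : ℂ) = 0 := by
      push_cast; exact h3
    exact Nat.succ_ne_zero ((m - Finsupp.single k 1 : Fin n →₀ ℕ) k) (by exact_mod_cast this)

/-- the substitution of zero for one variable -/
noncomputable def ev0 (i : Fin n) : MvPolynomial (Fin n) ℂ →ₐ[ℂ] MvPolynomial (Fin n) ℂ :=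
  aeval fun k => if k = i then 0 else X k

theorem ev0_eq_self {f : MvPolynomial (Fin n) ℂ} {i : Fin n}
    (h : f ∈ supported ℂ ({i}ᶜ : Set (Fin n))) : ev0 i f = f := by
  classical
  have h1 := aeval_ite_mem_eq_self f (s := ({i}ᶜ : Set (Fin n))) (mem_supported.1 h)
  have h2 : (fun k => if k ∈ ({i}ᶜ : Set (Fin n)) then (X k : MvPolynomial (Fin n) ℂ) else 0) =
      fun k => if k = i then 0 else X k := by
    funext k
    by_cases hk : k = i
    · simp [hk]
    · simp [hk]
  rw [h2] at h1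
  exact h1

theorem ev0_eq_C {f : MvPolynomial (Fin n) ℂ} {i : Fin n}
    (h : f ∈ supported ℂ ({i} : Set (Fin n))) : ev0 i f = C (eval 0 f) := by
  unfold supported at h
  induction h using Algebra.adjoin_induction with
  | mem x hx =>
    obtain ⟨k, hk, rfl⟩ := hx
    rw [Set.mem_singleton_iff] at hk
    subst hk
    simp [ev0]
  | algebraMap c =>
    rw [MvPolynomial.algebraMap_eq]
    simp [ev0]
  | add x y _ _ hx hy => rw [map_add, map_add, hx, hy, map_add]
  | mul x y _ _ hx hy => rw [map_mul, map_mul, hx, hy, map_mul]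

end ev

section prog

variable {n W : ℕ}

/-- products of layers -/
noncomputable def pv (L : List (Fin n × Matrix (Fin W) (Fin W) (MvPolynomial (Fin n) ℂ))) :
    Matrix (Fin W) (Fin W) (MvPolynomial (Fin n) ℂ) := (L.map Prod.snd).prod

/-- row vector of a program -/
noncomputable def row (u : Fin W → ℂ)
    (L : List (Fin n × Matrix (Fin W) (Fin W) (MvPolynomial (Fin n) ℂ))) (b : Fin W) :
    MvPolynomial (Fin n) ℂ := ∑ a, C (u a) * pv L a b

/-- column vector of a program -/
noncomputable def col (L : List (Fin n × Matrix (Fin W) (Fin W) (MvPolynomial (Fin n) ℂ)))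
    (v : Fin W → ℂ) (a : Fin W) : MvPolynomial (Fin n) ℂ := ∑ b, pv L a b * C (v b)

/-- value of a program -/
noncomputable def value (u : Fin W → ℂ)
    (L : List (Fin n × Matrix (Fin W) (Fin W) (MvPolynomial (Fin n) ℂ))) (v : Fin W → ℂ) :
    MvPolynomial (Fin n) ℂ := ∑ a, C (u a) * col L v a

theorem pv_nil : pv ([] : List (Fin n × Matrix (Fin W) (Fin W) (MvPolynomial (Fin n) ℂ))) = 1 :=
  List.prod_nil

theorem pv_append (L₁ L₂ : List (Fin n × Matrix (Fin W) (Fin W) (MvPolynomial (Fin n) ℂ))) :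
    pv (L₁ ++ L₂) = pv L₁ * pv L₂ := by
  unfold pv
  rw [List.map_append, List.prod_append]

theorem pv_cons (p : Fin n × Matrix (Fin W) (Fin W) (MvPolynomial (Fin n) ℂ))
    (L : List (Fin n × Matrix (Fin W) (Fin W) (MvPolynomial (Fin n) ℂ))) :
    pv (p :: L) = p.2 * pv L := by
  unfold pv
  rw [List.map_cons, List.prod_cons]

theorem col_cons (p : Fin n × Matrix (Fin W) (Fin W) (MvPolynomial (Fin n) ℂ))
    (L : List (Fin n × Matrix (Fin W) (Fin W) (MvPolynomial (Fin n) ℂ))) (v : Fin W → ℂ)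
    (a : Fin W) : col (p :: L) v a = ∑ b, p.2 a b * col L v b := by
  unfold col
  rw [pv_cons]
  simp only [Matrix.mul_apply, Finset.sum_mul, Finset.mul_sum]
  rw [Finset.sum_comm]
  exact Finset.sum_congr rfl fun b _ => Finset.sum_congr rfl fun c _ => by ring

theorem value_append (u v : Fin W → ℂ)
    (L₁ L₂ : List (Fin n × Matrix (Fin W) (Fin W) (MvPolynomial (Fin n) ℂ))) :
    value u (L₁ ++ L₂) v = ∑ a, row u L₁ a * col L₂ v a := by
  unfold value col row
  rw [pv_append]
  simp only [Matrix.mul_apply, Finset.sum_mul, Finset.mul_sum]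
  have h1 : ∀ x : Fin W, ∑ i, ∑ i_1, C (u x) * (pv L₁ x i_1 * pv L₂ i_1 i * C (v i)) =
      ∑ i_1, ∑ i, C (u x) * (pv L₁ x i_1 * pv L₂ i_1 i * C (v i)) := fun x => Finset.sum_comm
  simp only [h1]
  rw [Finset.sum_comm]
  refine Finset.sum_congr rfl fun b _ => ?_
  rw [Finset.sum_comm]
  refine Finset.sum_congr rfl fun c _ => Finset.sum_congr rfl fun d _ => by ring

theorem value_eq_row (u v : Fin W → ℂ)
    (L : List (Fin n × Matrix (Fin W) (Fin W) (MvPolynomial (Fin n) ℂ))) :
    value u L v = ∑ b, row u L b * C (v b) := by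
  unfold value col row
  simp only [Finset.sum_mul, Finset.mul_sum]
  rw [Finset.sum_comm]
  refine Finset.sum_congr rfl fun b _ => Finset.sum_congr rfl fun c _ => by ring

theorem pv_supp {L : List (Fin n × Matrix (Fin W) (Fin W) (MvPolynomial (Fin n) ℂ))}
    (h : ∀ p ∈ L, ∀ a b, p.2 a b ∈ supported ℂ ({p.1} : Set (Fin n))) :
    ∀ a b, pv L a b ∈ supported ℂ {i | i ∈ L.map Prod.fst} := by
  induction L with
  | nil =>
    intro a b
    rw [pv_nil]
    by_cases hab : a = b
    · subst hab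
      rw [Matrix.one_apply_eq]
      exact Subalgebra.one_mem _
    · rw [Matrix.one_apply_ne hab]
      exact Subalgebra.zero_mem _
  | cons p L ih =>
    intro a b
    rw [pv_cons, Matrix.mul_apply]
    refine Subalgebra.sum_mem _ fun c _ => Subalgebra.mul_mem _ ?_ ?_
    · refine supported_mono ?_ (h p List.mem_cons_self a c)
      intro i hi
      rw [Set.mem_singleton_iff] at hi
      subst hi
      simp
    · refine supported_mono ?_ (ih (fun q hq => h q (List.mem_cons_of_mem _ hq)) c b)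
      intro i hi
      rw [List.map_cons]
      exact List.mem_cons_of_mem _ hi

theorem row_supp {L : List (Fin n × Matrix (Fin W) (Fin W) (MvPolynomial (Fin n) ℂ))}
    (h : ∀ p ∈ L, ∀ a b, p.2 a b ∈ supported ℂ ({p.1} : Set (Fin n))) (u : Fin W → ℂ)
    (b : Fin W) : row u L b ∈ supported ℂ {i | i ∈ L.map Prod.fst} :=
  Subalgebra.sum_mem _ fun a _ => Subalgebra.mul_mem _ (Subalgebra.algebraMap_mem _ _)
    (pv_supp h a b)

theorem col_supp {L : List (Fin n × Matrix (Fin W) (Fin W) (MvPolynomial (Fin n) ℂ))}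
    (h : ∀ p ∈ L, ∀ a b, p.2 a b ∈ supported ℂ ({p.1} : Set (Fin n))) (v : Fin W → ℂ)
    (a : Fin W) : col L v a ∈ supported ℂ {i | i ∈ L.map Prod.fst} :=
  Subalgebra.sum_mem _ fun b _ => Subalgebra.mul_mem _ (pv_supp h a b)
    (Subalgebra.algebraMap_mem _ _)

theorem value_supp {L : List (Fin n × Matrix (Fin W) (Fin W) (MvPolynomial (Fin n) ℂ))}
    (h : ∀ p ∈ L, ∀ a b, p.2 a b ∈ supported ℂ ({p.1} : Set (Fin n))) (u v : Fin W → ℂ) :
    value u L v ∈ supported ℂ {i | i ∈ L.map Prod.fst} :=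
  Subalgebra.sum_mem _ fun a _ => Subalgebra.mul_mem _ (Subalgebra.algebraMap_mem _ _)
    (col_supp h v a)

theorem col_nil (v : Fin W → ℂ) (a : Fin W) :
    col ([] : List (Fin n × Matrix (Fin W) (Fin W) (MvPolynomial (Fin n) ℂ))) v a = C (v a) := by
  unfold col
  rw [pv_nil, Finset.sum_eq_single a]
  · rw [Matrix.one_apply_eq, one_mul]
  · intro c _ hc
    rw [Matrix.one_apply_ne hc.symm, zero_mul]
  · intro h; exact absurd (Finset.mem_univ _) h

theorem ev0_row {L : List (Fin n × Matrix (Fin W) (Fin W) (MvPolynomial (Fin n) ℂ))}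
    (h : ∀ p ∈ L, ∀ a b, p.2 a b ∈ supported ℂ ({p.1} : Set (Fin n))) (u : Fin W → ℂ)
    (b : Fin W) {i : Fin n} (hi : i ∉ L.map Prod.fst) : ev0 i (row u L b) = row u L b := by
  apply ev0_eq_self
  refine supported_mono ?_ (row_supp h u b)
  intro k hk hki
  rw [Set.mem_singleton_iff] at hki
  rw [hki] at hk
  exact hi hk

theorem ev0_col {L : List (Fin n × Matrix (Fin W) (Fin W) (MvPolynomial (Fin n) ℂ))}
    (h : ∀ p ∈ L, ∀ a b, p.2 a b ∈ supported ℂ ({p.1} : Set (Fin n))) (v : Fin W → ℂ)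
    (b : Fin W) {i : Fin n} (hi : i ∉ L.map Prod.fst) : ev0 i (col L v b) = col L v b := by
  apply ev0_eq_self
  refine supported_mono ?_ (col_supp h v b)
  intro k hk hki
  rw [Set.mem_singleton_iff] at hki
  rw [hki] at hk
  exact hi hk

theorem value_ev0 {L₁ L₂ : List (Fin n × Matrix (Fin W) (Fin W) (MvPolynomial (Fin n) ℂ))}
    {i : Fin n} {M : Matrix (Fin W) (Fin W) (MvPolynomial (Fin n) ℂ)}
    (hs1 : ∀ p ∈ L₁, ∀ a b, p.2 a b ∈ supported ℂ ({p.1} : Set (Fin n)))
    (hs2 : ∀ p ∈ L₂, ∀ a b, p.2 a b ∈ supported ℂ ({p.1} : Set (Fin n)))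
    (hM : ∀ a b, M a b ∈ supported ℂ ({i} : Set (Fin n)))
    (hn1 : i ∉ L₁.map Prod.fst) (hn2 : i ∉ L₂.map Prod.fst)
    (u v : Fin W → ℂ) (h0 : pderiv i (value u (L₁ ++ (i, M) :: L₂) v) = 0) :
    value u (L₁ ++ (i, M) :: L₂) v =
      ∑ a, row u L₁ a * ∑ b, C (eval 0 (M a b)) * col L₂ v b := by
  rw [← ev0_eq_self (supported_of_pderiv_eq_zero h0), value_append, map_sum]
  refine Finset.sum_congr rfl fun a _ => ?_
  rw [map_mul, ev0_row hs1 u a hn1, col_cons, map_sum]
  congr 1
  refine Finset.sum_congr rfl fun b _ => ?_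
  rw [map_mul, ev0_col hs2 v b hn2, ev0_eq_C (hM a b)]

end prog

end Pool.Agent.W943.Cut
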