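import Mathlib
import Pool.Agent.W943.Cut.P1

/-!
Read-once programs with generically invertible layers.
-/

namespace Pool.Agent.W943.Cut

open MvPolynomial Pool.Agent.H530R2 Pool.Agent.W943

section few

variable {n : ℕ}

/-- nonzero polynomials in at most `k` variables are not in the ideal of level `k` -/
theorem few_notMem (V : DChain ℂ n) {k : ℕ} {f : MvPolynomial (Fin n) ℂ} (S : Finset (Fin n))
    (hS : S.card ≤ k) (hf : f ∈ supported ℂ (S : Set (Fin n))) (h0 : f ≠ 0) : f ∉ V.I k := by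
  classical
  set ι : Fin S.card → Fin n := fun k => S.orderEmbOfFin rfl k with hι
  have hinj : Function.Injective ι := (S.orderEmbOfFin rfl).injective
  have hrange : Set.range ι = (S : Set (Fin n)) := S.range_orderEmbOfFin rfl
  obtain ⟨F, hF⟩ := exists_rename_eq_of_vars_subset_range f ι hinj (by
    rw [hrange]; exact mem_supported.1 hf)
  have hF0 : F ≠ 0 := by
    intro h; apply h0; rw [← hF, h, map_zero]
  have hone : (1 : MvPolynomial (Fin n) ℂ) ∉ V.I 0 := by
    intro h
    exact (V.prime 0).ne_top ((Ideal.eq_top_iff_one _).2 h)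
  have hD : ∀ i k, ∑ l, (fun (i : Fin S.card) (l : Fin n) => if ι i = l then
      (1 : MvPolynomial (Fin n) ℂ) else 0) i l * pderiv l (X (ι k)) =
      if i = k then 1 else 0 := by
    intro i k
    rw [Finset.sum_eq_single (ι i)]
    · beta_reduce
      rw [if_pos rfl, one_mul, pderiv_X]
      by_cases hik : i = k
      · subst hik
        rw [if_pos rfl, Pi.single_eq_same]
      · rw [if_neg hik, Pi.single_eq_of_ne]
        intro h
        exact hik (hinj h.symm)
    · intro l _ hl
      beta_reduce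
      rw [if_neg (Ne.symm hl), zero_mul]
    · intro h; exact absurd (Finset.mem_univ _) h
  intro hmem
  set U := V.pull (fun k => X (ι k)) (fun i l => if ι i = l then 1 else 0) 1 hD 0 hone with hU
  have h1 : F ∈ U.I S.card := by
    show aeval (fun k => X (ι k) : Fin S.card → MvPolynomial (Fin n) ℂ) F ∈ V.I (0 + S.card)
    have h2 : aeval (fun k => X (ι k) : Fin S.card → MvPolynomial (Fin n) ℂ) F = f := by
      rw [← hF]
      have h3 := aeval_rename (R := ℂ) ι (X : Fin n → MvPolynomial (Fin n) ℂ) F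
      rw [aeval_X_left_apply] at h3
      rw [h3]
      rfl
    rw [h2]
    exact V.mono (by omega) hmem
  rw [U.level_n] at h1
  exact hF0 ((Submodule.mem_bot _).1 h1)

/-- the substitution of a constant for one variable -/
noncomputable def evc (i : Fin n) (c : ℂ) : MvPolynomial (Fin n) ℂ →ₐ[ℂ] MvPolynomial (Fin n) ℂ :=
  aeval fun k => if k = i then C c else X k

theorem evc_eq_self {f : MvPolynomial (Fin n) ℂ} {i : Fin n} (c : ℂ)
    (h : f ∈ supported ℂ ({i}ᶜ : Set (Fin n))) : evc i c f = f := by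
  unfold supported at h
  induction h using Algebra.adjoin_induction with
  | mem x hx =>
    obtain ⟨k, hk, rfl⟩ := hx
    have hk' : k ≠ i := by
      intro h; exact hk h
    simp [evc, hk']
  | algebraMap c =>
    rw [MvPolynomial.algebraMap_eq]
    simp [evc]
  | add x y _ _ hx hy => rw [map_add, hx, hy]
  | mul x y _ _ hx hy => rw [map_mul, hx, hy]

theorem evc_eq_C {f : MvPolynomial (Fin n) ℂ} {i : Fin n} (c : ℂ)
    (h : f ∈ supported ℂ ({i} : Set (Fin n))) : evc i c f = C (eval (fun _ => c) f) := by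
  unfold supported at h
  induction h using Algebra.adjoin_induction with
  | mem x hx =>
    obtain ⟨k, hk, rfl⟩ := hx
    rw [Set.mem_singleton_iff] at hk
    subst hk
    simp [evc]
  | algebraMap c =>
    rw [MvPolynomial.algebraMap_eq]
    simp [evc]
  | add x y _ _ hx hy => rw [map_add, map_add, hx, hy, map_add]
  | mul x y _ _ hx hy => rw [map_mul, map_mul, hx, hy, map_mul]

theorem eval_univ {f : MvPolynomial (Fin n) ℂ} {i : Fin n} (z : Fin n → ℂ)
    (h : f ∈ supported ℂ ({i} : Set (Fin n))) : eval z f = eval (fun _ => z i) f := by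
  unfold supported at h
  induction h using Algebra.adjoin_induction with
  | mem x hx =>
    obtain ⟨k, hk, rfl⟩ := hx
    rw [Set.mem_singleton_iff] at hk
    subst hk
    simp
  | algebraMap c =>
    rw [MvPolynomial.algebraMap_eq]
    simp
  | add x y _ _ hx hy => rw [map_add, map_add, hx, hy]
  | mul x y _ _ hx hy => rw [map_mul, map_mul, hx, hy]

theorem indep_ext {r : ℕ} {i : Fin n} {g y : Fin r → MvPolynomial (Fin n) ℂ}
    (hg : ∀ a, g a ∈ supported ℂ ({i}ᶜ : Set (Fin n)))
    (hy : ∀ a, y a ∈ supported ℂ ({i} : Set (Fin n)))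
    (hi : ∀ c : Fin r → ℂ, ∑ a, C (c a) * g a = 0 → c = 0) (h : ∑ a, g a * y a = 0)
    (a : Fin r) : y a = 0 := by
  have key : ∀ c : ℂ, eval (fun _ => c) (y a) = 0 := by
    intro c
    have h1 := congrArg (evc i c) h
    rw [map_sum, map_zero] at h1
    have h2 : ∑ a, C (eval (fun _ => c) (y a)) * g a = 0 := by
      rw [← h1]
      refine Finset.sum_congr rfl fun a _ => ?_
      rw [map_mul, evc_eq_self c (hg a), evc_eq_C c (hy a), mul_comm]
    exact congrFun (hi _ h2) a
  apply MvPolynomial.funext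
  intro z
  rw [eval_univ z (hy a), key, map_zero]

end few

section st

variable {n r r' : ℕ} {τ : Type*}

theorem algHom_C (ψ : MvPolynomial (Fin n) ℂ →ₐ[ℂ] MvPolynomial τ ℂ) (c : ℂ) :
    ψ (C c) = C c := by
  rw [← MvPolynomial.algebraMap_eq, AlgHom.commutes]
  rfl

theorem dl_C_mul (L : List (Fin n)) (c : ℂ) (q : MvPolynomial (Fin n) ℂ) :
    dl L (C c * q) = C c * dl L q := by
  induction L generalizing q with
  | nil => rfl
  | cons i L ih => rw [dl_cons, dl_cons, pderiv_C_mul, ih]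

/-- the images of the derivatives of order at most `κ` have full rank -/
def St (ψ : MvPolynomial (Fin n) ℂ →ₐ[ℂ] MvPolynomial τ ℂ) (g : Fin r → MvPolynomial (Fin n) ℂ)
    (κ : ℕ) : Prop :=
  ∀ l : Fin r → MvPolynomial τ ℂ,
    (∀ L : List (Fin n), L.length ≤ κ → ∑ a, l a * ψ (dl L (g a)) = 0) → l = 0

theorem st_of_indep (ψ : MvPolynomial (Fin n) ℂ →ₐ[ℂ] MvPolynomial τ ℂ)
    (g : Fin r → MvPolynomial (Fin n) ℂ)
    (hg : ∀ c : Fin r → ℂ, c ≠ 0 → ψ (∑ a, C (c a) * g a) ≠ 0) : St ψ g (r - 1) := by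
  intro l hl
  rcases Nat.eq_zero_or_pos r with hr | hr
  · subst hr
    exact Subsingleton.elim _ _
  · have h1 := relN_finrank ψ g hg hr (r - 1)
    rw [Nat.sub_self] at h1
    have h2 : relN ψ g (r - 1) = ⊥ := Submodule.finrank_eq_zero.1 (Nat.le_zero.1 h1)
    have h3 := (mem_relN_int ψ g).2 hl
    rw [h2, Submodule.mem_bot] at h3
    funext a
    exact (map_eq_zero_iff _ (IsFractionRing.injective (MvPolynomial τ ℂ)
      (FractionRing (MvPolynomial τ ℂ)))).1 (congrFun h3 a)

theorem St.rel {ψ : MvPolynomial (Fin n) ℂ →ₐ[ℂ] MvPolynomial τ ℂ}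
    {g : Fin r → MvPolynomial (Fin n) ℂ} {g' : Fin r' → MvPolynomial (Fin n) ℂ}
    {M : Fin r → Fin r' → MvPolynomial (Fin n) ℂ} {i : Fin n} {κ : ℕ} (h : St ψ g κ)
    (hg : ∀ a, g a ∈ supported ℂ ({i}ᶜ : Set (Fin n)))
    (hM : ∀ a b, M a b ∈ supported ℂ ({i} : Set (Fin n)))
    (hg' : ∀ b, g' b = ∑ a, g a * M a b) (l : Fin r' → MvPolynomial τ ℂ)
    (hl : ∀ L : List (Fin n), L.length ≤ κ → ∑ b, l b * ψ (dl L (g' b)) = 0) (a : Fin r) :
    ∑ b, ψ (M a b) * l b = 0 := by
  refine congrFun (h (fun a => ∑ b, ψ (M a b) * l b) fun L hL => ?_) a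
  by_cases hLi : ∀ k ∈ L, k ∈ ({i}ᶜ : Set (Fin n))
  · have h1 : ∀ b, dl L (g' b) = ∑ a, dl L (g a) * M a b := by
      intro b
      rw [hg', dl_sum]
      refine Finset.sum_congr rfl fun a _ => ?_
      exact dl_mul_of_supported ({i}ᶜ : Set (Fin n)) (by rw [compl_compl]; exact hM a b) L hLi _
    have h2 := hl L hL
    simp only [h1, map_sum, map_mul, Finset.mul_sum] at h2
    rw [Finset.sum_comm] at h2
    rw [← h2]
    refine Finset.sum_congr rfl fun a _ => ?_
    rw [Finset.sum_mul]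
    refine Finset.sum_congr rfl fun b _ => by ring
  · push Not at hLi
    have h1 : ∀ a, dl L (g a) = 0 := fun a => dl_eq_zero_of_supported _ L (hg a) hLi
    simp only [h1, map_zero, mul_zero, Finset.sum_const_zero]

/-- an invertible layer preserves the state -/
theorem St.step {ψ : MvPolynomial (Fin n) ℂ →ₐ[ℂ] MvPolynomial τ ℂ}
    {g g' : Fin r → MvPolynomial (Fin n) ℂ}
    {M : Fin r → Fin r → MvPolynomial (Fin n) ℂ} {i : Fin n} {κ : ℕ} (h : St ψ g κ)
    (hg : ∀ a, g a ∈ supported ℂ ({i}ᶜ : Set (Fin n)))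
    (hM : ∀ a b, M a b ∈ supported ℂ ({i} : Set (Fin n)))
    (hg' : ∀ b, g' b = ∑ a, g a * M a b) (hdet : ψ (Matrix.of M).det ≠ 0) : St ψ g' κ := by
  intro l hl
  have h1 := h.rel hg hM hg' l hl
  apply Matrix.eq_zero_of_mulVec_eq_zero (M := (Matrix.of M).map ψ)
  · have h2 : ((Matrix.of M).map ψ).det = ψ (Matrix.of M).det :=
      (AlgHom.map_det ψ (Matrix.of M)).symm
    rw [h2]
    exact hdet
  · funext a
    exact h1 a

/-- a general layer -/
theorem St.next (V : DChain ℂ n) {j κ : ℕ} (hj : 1 ≤ j)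
    {ψ : MvPolynomial (Fin n) ℂ →ₐ[ℂ] MvPolynomial τ ℂ} (hψ : V.I j = RingHom.ker ψ)
    {g : Fin r → MvPolynomial (Fin n) ℂ} {g' : Fin r' → MvPolynomial (Fin n) ℂ}
    {M : Fin r → Fin r' → MvPolynomial (Fin n) ℂ} {i : Fin n} (h : St ψ g κ)
    (hg : ∀ a, g a ∈ supported ℂ ({i}ᶜ : Set (Fin n)))
    (hM : ∀ a b, M a b ∈ supported ℂ ({i} : Set (Fin n)))
    (hg' : ∀ b, g' b = ∑ a, g a * M a b) (c : Fin r' → ℂ)
    (hc : ∑ b, C (c b) * g' b ∈ V.I (j + κ)) : ∑ b, C (c b) * g' b = 0 := by
  have h1 := h.rel hg hM hg' (fun b => C (c b)) (fun L hL => by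
    have h2 : dl L (∑ b, C (c b) * g' b) ∈ V.I j := V.dl_mem L (V.mono (by omega) hc)
    rw [hψ, RingHom.mem_ker] at h2
    rw [← h2, dl_sum, map_sum]
    refine Finset.sum_congr rfl fun b _ => ?_
    rw [dl_C_mul, map_mul, algHom_C])
  have h4 : ∀ a, ∑ b, M a b * C (c b) = 0 := by
    intro a
    have h5 : ∑ b, M a b * C (c b) ∈ V.I j := by
      rw [hψ, RingHom.mem_ker, map_sum, ← h1 a]
      refine Finset.sum_congr rfl fun b _ => ?_
      rw [map_mul, algHom_C]
    by_contra hne
    refine few_notMem V (k := 1) {i} (by simp) ?_ hne (V.mono hj h5)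
    rw [Finset.coe_singleton]
    exact Subalgebra.sum_mem _ fun b _ => Subalgebra.mul_mem _ (hM a b)
      (Subalgebra.algebraMap_mem _ _)
  calc ∑ b, C (c b) * g' b = ∑ a, g a * ∑ b, M a b * C (c b) := by
        simp only [hg', Finset.mul_sum]
        rw [Finset.sum_comm]
        refine Finset.sum_congr rfl fun b _ => Finset.sum_congr rfl fun a _ => by ring
    _ = 0 := by simp only [h4, mul_zero, Finset.sum_const_zero]

end st

section bas

variable {n W : ℕ}

/-- a basis `g` of the span of the entries of `q` -/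
structure Bas (q : Fin W → MvPolynomial (Fin n) ℂ) (r : ℕ)
    (g : Fin r → MvPolynomial (Fin n) ℂ) (B : Fin r → Fin W → ℂ) (D : Fin W → Fin r → ℂ) :
    Prop where
  le : r ≤ W
  q_eq : ∀ b, q b = ∑ a, C (B a b) * g a
  g_eq : ∀ a, g a = ∑ b, C (D b a) * q b
  indep : ∀ c : Fin r → ℂ, ∑ a, C (c a) * g a = 0 → c = 0

theorem exists_bas (q : Fin W → MvPolynomial (Fin n) ℂ) : ∃ (r : ℕ)
    (g : Fin r → MvPolynomial (Fin n) ℂ) (B : Fin r → Fin W → ℂ) (D : Fin W → Fin r → ℂ),
    Bas q r g B D := by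
  classical
  set S := Submodule.span ℂ (Set.range q) with hS
  have : FiniteDimensional ℂ S := FiniteDimensional.span_of_finite ℂ (Set.finite_range q)
  set bas := Module.finBasis ℂ S with hbas
  have hmem : ∀ b, q b ∈ S := fun b => Submodule.subset_span (Set.mem_range_self b)
  have hD : ∀ a, ∃ d : Fin W → ℂ, ∑ b, d b • q b = (bas a : MvPolynomial (Fin n) ℂ) :=
    fun a => (Submodule.mem_span_range_iff_exists_fun ℂ).1 (bas a).2
  choose D hD using hD
  refine ⟨Module.finrank ℂ S, fun a => (bas a : MvPolynomial (Fin n) ℂ),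
    fun a b => bas.repr ⟨q b, hmem b⟩ a, fun b a => D a b, ?_, ?_, ?_, ?_⟩
  · have := finrank_range_le_card (R := ℂ) q
    rw [Fintype.card_fin] at this
    exact this
  · intro b
    have h1 := bas.sum_repr ⟨q b, hmem b⟩
    have h2 := congrArg (Submodule.subtype S) h1
    rw [map_sum] at h2
    simp only [map_smul, Submodule.subtype_apply, MvPolynomial.smul_eq_C_mul] at h2
    exact h2.symm
  · intro a
    rw [← hD a]
    exact Finset.sum_congr rfl fun b _ => MvPolynomial.smul_eq_C_mul _ _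
  · intro c hc
    have h1 : ∑ a, c a • bas a = 0 := by
      apply Subtype.ext
      rw [← Submodule.subtype_apply, map_sum]
      simp only [map_smul, Submodule.subtype_apply, MvPolynomial.smul_eq_C_mul]
      exact hc
    funext a
    exact (Fintype.linearIndependent_iff.1 bas.linearIndependent) c h1 a

variable {r r' : ℕ} {q q' : Fin W → MvPolynomial (Fin n) ℂ}
  {g : Fin r → MvPolynomial (Fin n) ℂ} {B : Fin r → Fin W → ℂ} {D : Fin W → Fin r → ℂ}
  {g' : Fin r' → MvPolynomial (Fin n) ℂ} {B' : Fin r' → Fin W → ℂ} {D' : Fin W → Fin r' → ℂ}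
  {i : Fin n}

theorem Bas.supp (h : Bas q r g B D) {Z : Set (Fin n)} (hq : ∀ b, q b ∈ supported ℂ Z)
    (a : Fin r) : g a ∈ supported ℂ Z := by
  rw [h.g_eq]
  exact Subalgebra.sum_mem _ fun b _ => Subalgebra.mul_mem _ (Subalgebra.algebraMap_mem _ _) (hq b)

/-- the reduced transition matrix -/
noncomputable def tr (B : Fin r → Fin W → ℂ) (M : Matrix (Fin W) (Fin W) (MvPolynomial (Fin n) ℂ))
    (D' : Fin W → Fin r' → ℂ) (a : Fin r) (b' : Fin r') : MvPolynomial (Fin n) ℂ :=
  ∑ b, ∑ c, C (B a b) * M b c * C (D' c b')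

theorem tr_supp {M : Matrix (Fin W) (Fin W) (MvPolynomial (Fin n) ℂ)}
    (hM : ∀ a b, M a b ∈ supported ℂ ({i} : Set (Fin n))) (a : Fin r) (b : Fin r') :
    tr B M D' a b ∈ supported ℂ ({i} : Set (Fin n)) :=
  Subalgebra.sum_mem _ fun _ _ => Subalgebra.sum_mem _ fun _ _ => Subalgebra.mul_mem _
    (Subalgebra.mul_mem _ (Subalgebra.algebraMap_mem _ _) (hM _ _))
    (Subalgebra.algebraMap_mem _ _)

theorem tr_eq (h : Bas q r g B D) (h' : Bas q' r' g' B' D')
    {M : Matrix (Fin W) (Fin W) (MvPolynomial (Fin n) ℂ)}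
    (hq : ∀ c, q' c = ∑ b, q b * M b c) (b' : Fin r') :
    g' b' = ∑ a, g a * tr B M D' a b' := by
  unfold tr
  rw [h'.g_eq]
  simp only [hq, h.q_eq, Finset.mul_sum, Finset.sum_mul]
  have h1 : ∀ c : Fin W, ∑ b, ∑ a, C (D' c b') * (C (B a b) * g a * M b c) =
      ∑ a, ∑ b, C (D' c b') * (C (B a b) * g a * M b c) := fun c => Finset.sum_comm
  simp only [h1]
  rw [Finset.sum_comm]
  refine Finset.sum_congr rfl fun a _ => ?_
  rw [Finset.sum_comm]
  refine Finset.sum_congr rfl fun b _ => Finset.sum_congr rfl fun c _ => by ring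

/-- the reduced transition matrix -/
noncomputable def trM (B : Fin r → Fin W → ℂ)
    (M : Matrix (Fin W) (Fin W) (MvPolynomial (Fin n) ℂ)) (D' : Fin W → Fin r' → ℂ) :
    Matrix (Fin r) (Fin r') (MvPolynomial (Fin n) ℂ) := Matrix.of (tr B M D')

/-- constant matrices -/
noncomputable def cM (n : ℕ) {r r' : ℕ} (B : Fin r → Fin r' → ℂ) :
    Matrix (Fin r) (Fin r') (MvPolynomial (Fin n) ℂ) := Matrix.of fun a b => C (B a b)

theorem trM_apply (B : Fin r → Fin W → ℂ)
    (M : Matrix (Fin W) (Fin W) (MvPolynomial (Fin n) ℂ)) (D' : Fin W → Fin r' → ℂ) (a : Fin r)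
    (b : Fin r') : trM B M D' a b = tr B M D' a b := rfl

theorem cM_apply (B : Fin r → Fin r' → ℂ) (a : Fin r) (b : Fin r') :
    cM n B a b = C (B a b) := rfl

theorem tr_mul (h : Bas q r g B D) (h' : Bas q' r' g' B' D')
    {M : Matrix (Fin W) (Fin W) (MvPolynomial (Fin n) ℂ)}
    (hM : ∀ a b, M a b ∈ supported ℂ ({i} : Set (Fin n)))
    (hqs : ∀ b, q b ∈ supported ℂ ({i}ᶜ : Set (Fin n)))
    (hq : ∀ c, q' c = ∑ b, q b * M b c) :
    trM B M D' * cM n B' = cM n B * M := by
  ext1 a c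
  have h1 := indep_ext (i := i) (g := g)
    (y := fun a => (trM B M D' * cM n B') a c -
      (cM n B * M) a c) (h.supp hqs) (fun a => ?_) h.indep ?_ a
  · exact sub_eq_zero.1 h1
  · refine Subalgebra.sub_mem _ ?_ ?_
    · rw [Matrix.mul_apply]
      exact Subalgebra.sum_mem _ fun b _ => Subalgebra.mul_mem _ (tr_supp hM a b)
        (Subalgebra.algebraMap_mem _ _)
    · rw [Matrix.mul_apply]
      exact Subalgebra.sum_mem _ fun b _ => Subalgebra.mul_mem _
        (Subalgebra.algebraMap_mem _ _) (hM b c)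
  · simp only [mul_sub, Finset.sum_sub_distrib]
    have e1 : ∑ a, g a * (trM B M D' * cM n B') a c = q' c := by
      rw [h'.q_eq]
      simp only [Matrix.mul_apply, trM_apply, cM_apply, tr_eq h h' hq,
        Finset.mul_sum]
      rw [Finset.sum_comm]
      refine Finset.sum_congr rfl fun b _ => Finset.sum_congr rfl fun a _ => by ring
    have e2 : ∑ a, g a * (cM n B * M) a c = q' c := by
      rw [hq]
      simp only [Matrix.mul_apply, cM_apply, h.q_eq,
        Finset.mul_sum, Finset.sum_mul]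
      rw [Finset.sum_comm]
      refine Finset.sum_congr rfl fun b _ => Finset.sum_congr rfl fun a _ => by ring
    rw [e1, e2, sub_self]

theorem Bas.mul_eq_one (h : Bas q r g B D) :
    cM n B * cM n D = (1 : Matrix (Fin r) (Fin r) (MvPolynomial (Fin n) ℂ)) := by
  have h1 : ∀ a' : Fin r, (fun a => ∑ b, B a b * D b a' - if a = a' then (1 : ℂ) else 0) = 0 := by
    intro a'
    apply h.indep
    simp only [map_sub, map_sum, map_mul, sub_mul, Finset.sum_sub_distrib]
    have e1 : ∑ a, (∑ b, C (B a b) * C (D b a')) * g a = g a' := by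
      rw [h.g_eq a']
      simp only [h.q_eq, Finset.mul_sum, Finset.sum_mul]
      rw [Finset.sum_comm]
      refine Finset.sum_congr rfl fun b _ => Finset.sum_congr rfl fun a _ => by ring
    have e2 : ∑ a, C (if a = a' then (1 : ℂ) else 0) * g a = g a' := by
      rw [Finset.sum_eq_single a']
      · rw [if_pos rfl, map_one, one_mul]
      · intro b _ hb
        rw [if_neg hb, map_zero, zero_mul]
      · intro h; exact absurd (Finset.mem_univ _) h
    rw [e1, e2, sub_self]
  ext1 a a'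
  rw [Matrix.mul_apply]
  simp only [cM_apply, ← map_mul, ← map_sum]
  have h2 := congrFun (h1 a') a
  simp only [Pi.zero_apply] at h2
  rw [sub_eq_zero.1 h2, Matrix.one_apply]
  split_ifs
  · rw [map_one]
  · rw [map_zero]

theorem tr_adj (h : Bas q r g B D) (h' : Bas q' r' g' B' D')
    {M : Matrix (Fin W) (Fin W) (MvPolynomial (Fin n) ℂ)}
    (hM : ∀ a b, M a b ∈ supported ℂ ({i} : Set (Fin n)))
    (hqs : ∀ b, q b ∈ supported ℂ ({i}ᶜ : Set (Fin n)))
    (hq : ∀ c, q' c = ∑ b, q b * M b c) :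
    trM B M D' * (cM n B' * M.adjugate * cM n D) =
      M.det • (1 : Matrix (Fin r) (Fin r) (MvPolynomial (Fin n) ℂ)) := by
  rw [← Matrix.mul_assoc, ← Matrix.mul_assoc, tr_mul h h' hM hqs hq, Matrix.mul_assoc _ M,
    Matrix.mul_adjugate, Matrix.mul_smul, Matrix.mul_one, Matrix.smul_mul, h.mul_eq_one]

theorem rank_le_of_inv (h : Bas q r g B D) (h' : Bas q' r' g' B' D')
    {M : Matrix (Fin W) (Fin W) (MvPolynomial (Fin n) ℂ)}
    (hM : ∀ a b, M a b ∈ supported ℂ ({i} : Set (Fin n)))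
    (hqs : ∀ b, q b ∈ supported ℂ ({i}ᶜ : Set (Fin n)))
    (hq : ∀ c, q' c = ∑ b, q b * M b c) (hdet : M.det ≠ 0) : r ≤ r' := by
  obtain ⟨z, hz⟩ : ∃ z : Fin n → ℂ, eval z M.det ≠ 0 := by
    by_contra hcon
    push Not at hcon
    apply hdet
    apply MvPolynomial.funext
    intro z
    rw [hcon z, map_zero]
  have h1 := congrArg (fun N : Matrix (Fin r) (Fin r) (MvPolynomial (Fin n) ℂ) => N.map (eval z))
    (tr_adj h h' hM hqs hq)
  simp only [Matrix.map_mul] at h1
  have h2 : (M.det • (1 : Matrix (Fin r) (Fin r) (MvPolynomial (Fin n) ℂ))).map (eval z) =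
      eval z M.det • (1 : Matrix (Fin r) (Fin r) ℂ) := by
    ext a b
    simp only [Matrix.map_apply, Matrix.smul_apply, smul_eq_mul, map_mul, Matrix.one_apply]
    split_ifs
    · rw [map_one]
    · rw [map_zero]
  rw [h2] at h1
  have h3 : (eval z M.det • (1 : Matrix (Fin r) (Fin r) ℂ)).rank = r := by
    rw [Matrix.rank_of_isUnit, Fintype.card_fin]
    rw [Matrix.isUnit_iff_isUnit_det, Matrix.det_smul, Matrix.det_one, mul_one]
    exact (pow_ne_zero _ hz).isUnit
  rw [← h3, ← h1, Matrix.mul_assoc]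
  exact (Matrix.rank_mul_le_left _ _).trans (Matrix.rank_le_width _)

theorem det_tr_ne_zero {g' : Fin r → MvPolynomial (Fin n) ℂ} {B' : Fin r → Fin W → ℂ}
    {D' : Fin W → Fin r → ℂ} (h : Bas q r g B D) (h' : Bas q' r g' B' D')
    {M : Matrix (Fin W) (Fin W) (MvPolynomial (Fin n) ℂ)}
    (hM : ∀ a b, M a b ∈ supported ℂ ({i} : Set (Fin n)))
    (hqs : ∀ b, q b ∈ supported ℂ ({i}ᶜ : Set (Fin n)))
    (hq : ∀ c, q' c = ∑ b, q b * M b c) (hdet : M.det ≠ 0) :
    (trM B M D').det ≠ 0 := by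
  intro h0
  have h1 := congrArg Matrix.det (tr_adj h h' hM hqs hq)
  rw [Matrix.det_mul, h0, zero_mul, Matrix.det_smul, Matrix.det_one, mul_one] at h1
  exact pow_ne_zero _ hdet h1.symm

end bas

section main

variable {n W : ℕ}

/-- levels: `J 1 = 1`, `J (r + 1) = J r + (r - 1)` -/
def J : ℕ → ℕ
  | 0 => 1
  | r + 1 => J r + (r - 1)

theorem J_mono {r r' : ℕ} (h : r ≤ r') : J r ≤ J r' := by
  induction r', h using Nat.le_induction with
  | base => exact le_rfl
  | succ m _ ih => exact ih.trans (Nat.le_add_right _ _)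

theorem J_pos (r : ℕ) : 1 ≤ J r := J_mono (Nat.zero_le r)

theorem J_eq (W : ℕ) : J (W + 1) = 1 + W * (W - 1) / 2 := by
  have key : ∀ W : ℕ, 2 * J (W + 1) = 2 + W * (W - 1) := by
    intro W
    induction W with
    | zero => rfl
    | succ W ih =>
      have h1 : J (W + 1 + 1) = J (W + 1) + W := rfl
      rw [h1, mul_add, ih]
      cases W with
      | zero => rfl
      | succ W => simp only [Nat.add_sub_cancel]; ring
  have := key W
  omega

theorem row_concat (u : Fin W → ℂ)
    (L : List (Fin n × Matrix (Fin W) (Fin W) (MvPolynomial (Fin n) ℂ)))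
    (p : Fin n × Matrix (Fin W) (Fin W) (MvPolynomial (Fin n) ℂ)) (c : Fin W) :
    row u (L ++ [p]) c = ∑ b, row u L b * p.2 b c := by
  unfold row
  rw [pv_append]
  have h1 : pv [p] = p.2 := by
    rw [pv_cons, pv_nil, mul_one]
  rw [h1]
  simp only [Matrix.mul_apply, Finset.mul_sum, Finset.sum_mul]
  rw [Finset.sum_comm]
  refine Finset.sum_congr rfl fun b _ => Finset.sum_congr rfl fun a _ => by ring

theorem inv_state (V : DChain ℂ n) (τ : ℕ → Type)
    (ψ : ∀ j, MvPolynomial (Fin n) ℂ →ₐ[ℂ] MvPolynomial (τ j) ℂ)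
    (hψ : ∀ j, V.I j = RingHom.ker (ψ j)) (u : Fin W → ℂ)
    (L : List (Fin n × Matrix (Fin W) (Fin W) (MvPolynomial (Fin n) ℂ))) :
    (L.map Prod.fst).Nodup → (∀ p ∈ L, ∀ a b, p.2 a b ∈ supported ℂ ({p.1} : Set (Fin n))) →
    (∀ p ∈ L.tail, p.2.det ≠ 0) → (∃ b, row u L b ≠ 0) →
    ∃ (r : ℕ) (g : Fin r → MvPolynomial (Fin n) ℂ) (B : Fin r → Fin W → ℂ)
      (D : Fin W → Fin r → ℂ), Bas (row u L) r g B D ∧ 1 ≤ r ∧
      ∃ j, 1 ≤ j ∧ j ≤ J r ∧ St (ψ j) g (r - 1) := by
  classical
  have hpos : ∀ {q : Fin W → MvPolynomial (Fin n) ℂ} {r : ℕ}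
      {g : Fin r → MvPolynomial (Fin n) ℂ} {B : Fin r → Fin W → ℂ} {D : Fin W → Fin r → ℂ},
      Bas q r g B D → (∃ b, q b ≠ 0) → 1 ≤ r := by
    intro q r g B D hb hq
    by_contra hr
    have hr0 : r = 0 := by omega
    subst hr0
    obtain ⟨b, hb'⟩ := hq
    apply hb'
    rw [hb.q_eq]
    simp
  induction L using List.reverseRecOn with
  | nil =>
    intro _ _ _ hne
    obtain ⟨r, g, B, D, hb⟩ := exists_bas (row u ([] : List (Fin n × Matrix (Fin W) (Fin W)
      (MvPolynomial (Fin n) ℂ))))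
    refine ⟨r, g, B, D, hb, hpos hb hne, 1, le_rfl, J_pos r, ?_⟩
    apply st_of_indep
    intro c hc h0
    have h1 : ∑ a, C (c a) * g a ∈ V.I 1 := by rw [hψ, RingHom.mem_ker]; exact h0
    refine few_notMem V (k := 1) ∅ (by simp) ?_ (fun h => hc (hb.indep c h)) h1
    refine Subalgebra.sum_mem _ fun a _ => Subalgebra.mul_mem _ (Subalgebra.algebraMap_mem _ _)
      (hb.supp (fun b => ?_) a)
    have := row_supp (L := ([] : List (Fin n × Matrix (Fin W) (Fin W)
      (MvPolynomial (Fin n) ℂ)))) (by simp) u b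
    simpa using this
  | append_singleton L p ih =>
    intro hnd hs hdet hne
    rcases List.eq_nil_or_concat L with hL | ⟨L', p', hL⟩
    · subst hL
      rw [List.nil_append] at hnd hs hdet hne ⊢
      obtain ⟨r, g, B, D, hb⟩ := exists_bas (row u [p])
      refine ⟨r, g, B, D, hb, hpos hb hne, 1, le_rfl, J_pos r, ?_⟩
      apply st_of_indep
      intro c hc h0
      have h1 : ∑ a, C (c a) * g a ∈ V.I 1 := by rw [hψ, RingHom.mem_ker]; exact h0
      refine few_notMem V (k := 1) {p.1} (by simp) ?_ (fun h => hc (hb.indep c h)) h1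
      refine Subalgebra.sum_mem _ fun a _ => Subalgebra.mul_mem _ (Subalgebra.algebraMap_mem _ _)
        (hb.supp (fun b => ?_) a)
      have := row_supp (L := [p]) hs u b
      simpa using this
    · have hLne : L ≠ [] := by
        rw [hL]; simp
      have htail : (L ++ [p]).tail = L.tail ++ [p] := List.tail_append_of_ne_nil hLne
      rw [htail] at hdet
      rw [List.map_append, List.nodup_append] at hnd
      obtain ⟨hnd1, -, hnd2⟩ := hnd
      have hs1 : ∀ p ∈ L, ∀ a b, p.2 a b ∈ supported ℂ ({p.1} : Set (Fin n)) :=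
        fun q hq => hs q (List.mem_append_left _ hq)
      have hsp := hs p (List.mem_append_right _ (List.mem_singleton_self p))
      have hdp : p.2.det ≠ 0 := hdet p (List.mem_append_right _ (List.mem_singleton_self p))
      have hn : p.1 ∉ L.map Prod.fst := by
        intro h
        exact hnd2 _ h _ (by simp) rfl
      have hqs : ∀ b, row u L b ∈ supported ℂ ({p.1}ᶜ : Set (Fin n)) := by
        intro b
        refine supported_mono ?_ (row_supp hs1 u b)
        intro k hk hki
        rw [Set.mem_singleton_iff] at hki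
        rw [hki] at hk
        exact hn hk
      have hq : ∀ c, row u (L ++ [p]) c = ∑ b, row u L b * p.2 b c := row_concat u L p
      have hne1 : ∃ b, row u L b ≠ 0 := by
        by_contra hcon
        push Not at hcon
        obtain ⟨b, hb⟩ := hne
        apply hb
        rw [hq]
        simp [hcon]
      obtain ⟨r, g, B, D, hb, hr, j, hj1, hj2, hst⟩ := ih hnd1 hs1
        (fun q hq => hdet q (List.mem_append_left _ hq)) hne1
      obtain ⟨r', g', B', D', hb'⟩ := exists_bas (row u (L ++ [p]))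
      have hrr := rank_le_of_inv hb hb' hsp hqs hq hdp
      refine ⟨r', g', B', D', hb', hpos hb' hne, ?_⟩
      rcases hrr.eq_or_lt with he | hlt
      · subst he
        refine ⟨j, hj1, hj2, hst.step (hb.supp hqs) (fun a b => tr_supp hsp a b)
          (tr_eq hb hb' hq) ?_⟩
        have h1 := det_tr_ne_zero hb hb' hsp hqs hq hdp
        intro h0
        have h2 : (trM B p.2 D').det ∈ V.I j := by rw [hψ, RingHom.mem_ker]; exact h0
        refine few_notMem V (k := 1) {p.1} (by simp) ?_ h1 (V.mono hj1 h2)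
        rw [Finset.coe_singleton, Matrix.det_apply]
        refine Subalgebra.sum_mem _ fun σ _ => ?_
        rw [Units.smul_def, zsmul_eq_mul]
        refine Subalgebra.mul_mem _ ?_ (Subalgebra.prod_mem _ fun a _ => tr_supp hsp _ _)
        exact_mod_cast Subalgebra.intCast_mem _ _
      · refine ⟨j + (r - 1), by omega, ?_, ?_⟩
        · have h1 : J (r + 1) = J r + (r - 1) := rfl
          have h2 : J (r + 1) ≤ J r' := J_mono hlt
          omega
        · apply st_of_indep
          intro c hc h0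
          have h1 : ∑ a, C (c a) * g' a ∈ V.I (j + (r - 1)) := by
            rw [hψ, RingHom.mem_ker]; exact h0
          exact hc (hb'.indep c (hst.next V hj1 (hψ j) (hb.supp hqs)
            (fun a b => tr_supp hsp a b) (tr_eq hb hb' hq) c h1))

/-- Read-once programs all of whose layers except possibly the first are generically
invertible. -/
theorem inv_notMem (V : DChain ℂ n) (hV : V.Uni) (u v : Fin W → ℂ)
    (L : List (Fin n × Matrix (Fin W) (Fin W) (MvPolynomial (Fin n) ℂ)))
    (hnd : (L.map Prod.fst).Nodup)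
    (hs : ∀ p ∈ L, ∀ a b, p.2 a b ∈ supported ℂ ({p.1} : Set (Fin n)))
    (hdet : ∀ p ∈ L.tail, p.2.det ≠ 0) (h0 : value u L v ≠ 0) :
    value u L v ∉ V.I (1 + W * (W - 1) / 2) := by
  intro hmem
  rw [← J_eq] at hmem
  choose τ ψ hψ using hV
  have hne : ∃ b, row u L b ≠ 0 := by
    by_contra hcon
    push Not at hcon
    apply h0
    rw [value_eq_row]
    simp [hcon]
  obtain ⟨r, g, B, D, hb, hr, j, hj1, hj2, hst⟩ := inv_state V τ ψ hψ u L hnd hs hdet hne
  have hval : value u L v = ∑ a, C (∑ b, B a b * v b) * g a := by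
    rw [value_eq_row]
    simp only [hb.q_eq, Finset.sum_mul, map_sum, map_mul]
    rw [Finset.sum_comm]
    refine Finset.sum_congr rfl fun a _ => Finset.sum_congr rfl fun b _ => by ring
  have hlev : j + (r - 1) ≤ J (W + 1) := by
    have h1 : J (W + 1) = J W + (W - 1) := rfl
    have h2 : J r ≤ J W := J_mono hb.le
    have h3 := hb.le
    omega
  have hz : (fun a => (C (∑ b, B a b * v b) : MvPolynomial (τ j) ℂ)) = 0 := by
    apply hst
    intro L' hL'
    have h1 : dl L' (value u L v) ∈ V.I j := V.dl_mem L' (V.mono (by omega) hmem)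
    rw [hval, hψ, RingHom.mem_ker, dl_sum, map_sum] at h1
    rw [← h1]
    refine Finset.sum_congr rfl fun a _ => ?_
    rw [dl_C_mul, map_mul, algHom_C]
  apply h0
  rw [hval]
  refine Finset.sum_eq_zero fun a _ => ?_
  have h1 := congrFun hz a
  simp only [Pi.zero_apply] at h1
  have h2 : ∑ b, B a b * v b = 0 := (C_eq_zero).1 h1
  rw [h2, map_zero, zero_mul]

end main

end Pool.Agent.W943.Cut
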