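import Mathlib
import Pool.Agent.W943.Cut.P2
import Pool.Agent.W943.Cut.ClsDef

/-!
Closure properties of the class.
-/

namespace Pool.Agent.W943.Cut

open MvPolynomial Pool.Agent.H530R2 Pool.Agent.W943

/-- the list of the layers as matrices over the polynomial ring -/
noncomputable def toMv {n W : ℕ} (L : List (Fin n × Matrix (Fin W) (Fin W) (Polynomial ℂ))) :
    List (Fin n × Matrix (Fin W) (Fin W) (MvPolynomial (Fin n) ℂ)) :=
  L.map fun p => (p.1, p.2.map (Polynomial.aeval (X p.1 : MvPolynomial (Fin n) ℂ)))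

theorem value_toMv {n W : ℕ} (u v : Fin W → ℂ)
    (L : List (Fin n × Matrix (Fin W) (Fin W) (Polynomial ℂ))) :
    value u (toMv L) v = prog u v L := by
  unfold value col pv toMv prog
  rw [List.map_map]
  simp only [Finset.mul_sum, mul_assoc]
  rfl

theorem toMv_fst {n W : ℕ} (L : List (Fin n × Matrix (Fin W) (Fin W) (Polynomial ℂ))) :
    (toMv L).map Prod.fst = L.map Prod.fst := by
  unfold toMv
  rw [List.map_map]
  rfl

theorem aeval_X_mem {n : ℕ} (i : Fin n) (q : Polynomial ℂ) :
    Polynomial.aeval (X i : MvPolynomial (Fin n) ℂ) q ∈ supported ℂ ({i} : Set (Fin n)) := by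
  unfold supported
  rw [Set.image_singleton]
  exact Polynomial.aeval_mem_adjoin_singleton _ _

theorem toMv_supp {n W : ℕ} (L : List (Fin n × Matrix (Fin W) (Fin W) (Polynomial ℂ))) :
    ∀ p ∈ toMv L, ∀ a b, p.2 a b ∈ supported ℂ ({p.1} : Set (Fin n)) := by
  intro p hp a b
  unfold toMv at hp
  obtain ⟨q, _, rfl⟩ := List.mem_map.1 hp
  exact aeval_X_mem q.1 (q.2 a b)

theorem aeval_X_eq {n : ℕ} (i : Fin n) {p q : Polynomial ℂ}
    (h : Polynomial.aeval (X i : MvPolynomial (Fin n) ℂ) p =
      Polynomial.aeval (X i : MvPolynomial (Fin n) ℂ) q) : p = q := by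
  have h1 : ∀ r : Polynomial ℂ, (MvPolynomial.aeval (fun _ => (Polynomial.X : Polynomial ℂ)) :
      MvPolynomial (Fin n) ℂ →ₐ[ℂ] Polynomial ℂ)
      (Polynomial.aeval (X i : MvPolynomial (Fin n) ℂ) r) = r := by
    intro r
    rw [← Polynomial.aeval_algHom_apply, MvPolynomial.aeval_X, Polynomial.aeval_X_left_apply]
  rw [← h1 p, h, h1 q]

theorem toMv_det {n W : ℕ} (i : Fin n) (M : Matrix (Fin W) (Fin W) (Polynomial ℂ))
    (h : M.det ≠ 0) : (M.map (Polynomial.aeval (X i : MvPolynomial (Fin n) ℂ))).det ≠ 0 := by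
  have h1 : (M.map (Polynomial.aeval (X i : MvPolynomial (Fin n) ℂ))).det =
      Polynomial.aeval (X i : MvPolynomial (Fin n) ℂ) M.det :=
    (AlgHom.map_det (Polynomial.aeval (X i : MvPolynomial (Fin n) ℂ)) M).symm
  rw [h1]
  intro h2
  apply h
  apply aeval_X_eq i
  rw [h2, map_zero]

/-- The polynomials of the class are not in the primes of the corresponding level. -/
theorem Cls.notMem {n s : ℕ} {f : MvPolynomial (Fin n) ℂ} (h : Cls n s f) :
    ∀ V : DChain ℂ n, V.Uni → f ∉ V.I s := by
  induction h with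
  | few h0 =>
    intro V _ hc
    rw [V.level_n] at hc
    exact h0 ((Submodule.mem_bot _).1 hc)
  | low h0 hd => exact fun V _ => V.low_notMem _ _ h0 hd
  | mono h hs ih => exact fun V hV hc => ih V hV (V.mono hs hc)
  | mul hf hg ihf ihg =>
    intro V hV hc
    rcases (V.prime _).mem_or_mem hc with h | h
    · exact ihf V hV h
    · exact ihg V hV h
  | factor hg h ih => exact fun V hV hc => ih V hV (Ideal.mem_of_dvd _ h hc)
  | primitive D h ih => exact fun V hV hc => ih V hV (V.vf_mem D hc)
  | cut Z g h hg hh hc α hα ihc ihα =>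
    exact fun V hV hf => ihα V hV (V.cut hV Z g h hg hh hf (fun c hc0 => ihc c hc0 V hV) α)
  | invertible L hd hL u v h0 =>
    intro V hV
    rw [← value_toMv] at h0 ⊢
    refine inv_notMem V hV u v (toMv L) (by rw [toMv_fst]; exact hd) (toMv_supp L) ?_ h0
    intro p hp
    have h1 : (toMv L).tail = toMv L.tail := by
      unfold toMv
      rw [List.map_tail]
    rw [h1] at hp
    unfold toMv at hp
    obtain ⟨q, hq, rfl⟩ := List.mem_map.1 hp
    exact toMv_det q.1 q.2 (hL q hq)
  | comp hF φ D hD hΔ ihF ihΔ =>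
    intro V hV hc
    exact ihF (V.pull φ D _ hD _ (ihΔ V hV)) (V.pull_uni hV φ D _ hD _ (ihΔ V hV)) hc

theorem Cls.ne_zero {n s : ℕ} {f : MvPolynomial (Fin n) ℂ} (h : Cls n s f) : f ≠ 0 := by
  intro h0
  have h1 := h.notMem (genChain (fun i : Fin n => ((i.val : ℕ) : ℂ)) (nodes_injective n))
    (genChain_uni _ _)
  rw [h0] at h1
  exact h1 (Ideal.zero_mem _)

/-- nonzero polynomials in at most `k` of the variables -/
theorem Cls.few' {n k : ℕ} {f : MvPolynomial (Fin n) ℂ} (S : Finset (Fin n)) (hS : S.card ≤ k)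
    (hf : f ∈ supported ℂ (S : Set (Fin n))) (h0 : f ≠ 0) : Cls n k f := by
  classical
  set ι : Fin S.card → Fin n := fun k => S.orderEmbOfFin rfl k with hι
  have hinj : Function.Injective ι := (S.orderEmbOfFin rfl).injective
  have hrange : Set.range ι = (S : Set (Fin n)) := S.range_orderEmbOfFin rfl
  obtain ⟨F, hF⟩ := exists_rename_eq_of_vars_subset_range f ι hinj (by
    rw [hrange]; exact mem_supported.1 hf)
  have hF0 : F ≠ 0 := by
    intro h; apply h0; rw [← hF, h, map_zero]
  have h1 := Cls.comp (n := n) (Cls.few hF0) (fun k => X (ι k))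
    (fun i l => if ι i = l then 1 else 0) (Δ := 1) (s := 0) ?_ (Cls.low one_ne_zero (by simp))
  · rw [zero_add] at h1
    have h2 : aeval (fun k => X (ι k) : Fin S.card → MvPolynomial (Fin n) ℂ) F = f := by
      rw [← hF]
      have h3 := aeval_rename (R := ℂ) ι (X : Fin n → MvPolynomial (Fin n) ℂ) F
      rw [aeval_X_left_apply] at h3
      rw [h3]
      rfl
    rw [h2] at h1
    exact h1.mono hS
  · intro i k
    rw [Finset.sum_eq_single (ι i)]
    · rw [if_pos rfl, one_mul, pderiv_X]
      by_cases hik : i = k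
      · subst hik
        rw [if_pos rfl, Pi.single_eq_same]
      · rw [if_neg hik, Pi.single_eq_of_ne]
        intro h
        exact hik (hinj h.symm)
    · intro l _ hl
      rw [if_neg (Ne.symm hl), zero_mul]
    · intro h; exact absurd (Finset.mem_univ _) h

/-- a primitive with respect to one variable -/
theorem Cls.pderiv' {n s : ℕ} {f : MvPolynomial (Fin n) ℂ} (i : Fin n)
    (h : Cls n s (pderiv i f)) : Cls n (s + 1) f := by
  classical
  apply Cls.primitive (fun l => if i = l then 1 else 0)
  have : field (fun l => if i = l then 1 else 0) f = pderiv i f := by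
    unfold field
    rw [Finset.sum_eq_single i]
    · simp
    · intro l _ hl
      simp [Ne.symm hl]
    · intro h; exact absurd (Finset.mem_univ _) h
  rw [this]
  exact h

/-- Sums of `r` products in separate variables, if the nonzero combinations of the factors are in
the class. -/
theorem Cls.cutSpan {n s : ℕ} (Z : Set (Fin n)) : ∀ {r : ℕ} (g h : Fin r → MvPolynomial (Fin n) ℂ),
    (∀ a, g a ∈ supported ℂ Z) → (∀ a, h a ∈ supported ℂ Zᶜ) →
    (∀ c : Fin r → ℂ, ∑ a, C (c a) * g a ≠ 0 → Cls n s (∑ a, C (c a) * g a)) →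
    (∀ c : Fin r → ℂ, ∑ a, C (c a) * h a ≠ 0 → Cls n s (∑ a, C (c a) * h a)) →
    ∑ a, g a * h a ≠ 0 → Cls n (s + (r - 1)) (∑ a, g a * h a) := by
  intro r
  induction r with
  | zero => intro g h _ _ _ _ h0; simp at h0
  | succ r ih =>
    intro g h hg hh hcg hch h0
    by_cases hli : ∀ c : Fin (r + 1) → ℂ, c ≠ 0 → ∑ a, C (c a) * g a ≠ 0
    · obtain ⟨α, hα⟩ : ∃ α, h α ≠ 0 := by
        by_contra hcon
        push Not at hcon
        apply h0
        simp [hcon]
      have h1 : ∑ a, C ((Pi.single α 1 : Fin (r + 1) → ℂ) a) * h a = h α := by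
        rw [Finset.sum_eq_single α]
        · rw [Pi.single_eq_same, map_one, one_mul]
        · intro b _ hb
          rw [Pi.single_eq_of_ne hb, map_zero, zero_mul]
        · intro h; exact absurd (Finset.mem_univ _) h
      refine Cls.cut Z g h hg hh (fun c hc => hcg c (hli c hc)) α ?_
      have h2 := hch (Pi.single α 1)
      rw [h1] at h2
      exact h2 hα
    · push Not at hli
      obtain ⟨μ, hμ0, hμ⟩ := hli
      obtain ⟨a0, ha0⟩ : ∃ a, μ a ≠ 0 := by
        by_contra hcon
        push Not at hcon
        exact hμ0 (funext hcon)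
      set g' : Fin r → MvPolynomial (Fin n) ℂ := fun b => g (a0.succAbove b) with hg'
      set h' : Fin r → MvPolynomial (Fin n) ℂ :=
        fun b => h (a0.succAbove b) - C (μ (a0.succAbove b) / μ a0) * h a0 with hh'
      have hga0 : g a0 = - ∑ b, C (μ (a0.succAbove b) / μ a0) * g (a0.succAbove b) := by
        rw [Fin.sum_univ_succAbove _ a0] at hμ
        have h1 : C (μ a0)⁻¹ * (C (μ a0) * g a0 + ∑ b, C (μ (a0.succAbove b)) *
            g (a0.succAbove b)) = 0 := by rw [hμ, mul_zero]
        rw [mul_add, ← mul_assoc, ← map_mul, inv_mul_cancel₀ ha0, map_one, one_mul,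
          Finset.mul_sum] at h1
        rw [eq_neg_iff_add_eq_zero, ← h1]
        congr 1
        apply Finset.sum_congr rfl
        intro b _
        rw [← mul_assoc, ← map_mul, div_eq_inv_mul]
      have hsum : ∑ a, g a * h a = ∑ b, g' b * h' b := by
        rw [Fin.sum_univ_succAbove _ a0, hga0, neg_mul, Finset.sum_mul, ← Finset.sum_neg_distrib,
          ← Finset.sum_add_distrib]
        apply Finset.sum_congr rfl
        intro b _
        rw [hg', hh']
        ring
      rw [hsum] at h0 ⊢
      have key : Cls n (s + (r - 1)) (∑ b, g' b * h' b) := by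
        refine ih g' h' (fun b => hg _) (fun b => ?_) ?_ ?_ h0
        · exact Subalgebra.sub_mem _ (hh _) (Subalgebra.mul_mem _
            (Subalgebra.algebraMap_mem _ _) (hh _))
        · intro c hc0
          have h1 : ∑ b, C (c b) * g' b =
              ∑ a, C ((a0.insertNth (0 : ℂ) c : Fin (r + 1) → ℂ) a) * g a := by
            rw [Fin.sum_univ_succAbove _ a0]
            simp [hg']
          rw [h1] at hc0 ⊢
          exact hcg _ hc0
        · intro c hc0
          have h1 : ∑ b, C (c b) * h' b =
              ∑ a, C ((a0.insertNth (-∑ b, c b * (μ (a0.succAbove b) / μ a0)) c :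
                Fin (r + 1) → ℂ) a) * h a := by
            rw [Fin.sum_univ_succAbove _ a0]
            simp only [Fin.insertNth_apply_same, Fin.insertNth_apply_succAbove, hh', mul_sub,
              Finset.sum_sub_distrib, map_neg, map_sum, map_mul, neg_mul, Finset.sum_mul]
            rw [add_comm, sub_eq_add_neg]
            congr 2
            apply Finset.sum_congr rfl
            intro b _
            ring
          rw [h1] at hc0 ⊢
          exact hch _ hc0
      exact key.mono (by omega)

/-- The class is closed under compositions with linearly independent affine forms. -/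
theorem affine {n m s : ℕ} {F : MvPolynomial (Fin m) ℂ} (hF : Cls m s F)
    (A : Fin m → Fin n → ℂ) (b : Fin m → ℂ) (hA : LinearIndependent ℂ A) :
    Cls n s (aeval (fun k => ∑ l, C (A k l) * X l + C (b k)) F) := by
  classical
  have hd : ∀ i : Fin m, ∃ d : Fin n → ℂ, ∀ k, A k ⬝ᵥ d = if i = k then 1 else 0 :=
    fun i => Pool.Agent.H530R2.exists_dual A hA _
  choose d hd using hd
  have h := Cls.comp (n := n) hF (fun k => ∑ l, C (A k l) * X l + C (b k))
    (fun i l => C (d i l)) (Δ := 1) (s := 0) ?_ (Cls.low one_ne_zero (by simp))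
  · rwa [zero_add] at h
  · intro i k
    have h1 : ∀ l, pderiv l (∑ l', C (A k l') * X l' + C (b k) : MvPolynomial (Fin n) ℂ) =
        C (A k l) := by
      intro l
      rw [map_add, pderiv_C, add_zero, map_sum, Finset.sum_eq_single l]
      · rw [pderiv_C_mul, pderiv_X_self, mul_one]
      · intro l' _ hl'
        rw [pderiv_C_mul, pderiv_X_of_ne hl', mul_zero]
      · intro h; exact absurd (Finset.mem_univ _) h
    simp only [h1, ← map_mul, ← map_sum]
    have h2 : ∑ l, d i l * A k l = if i = k then 1 else 0 := by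
      rw [← hd i k, dotProduct]
      exact Finset.sum_congr rfl fun l _ => mul_comm _ _
    rw [h2]
    split_ifs
    · rw [map_one]
    · rw [map_zero]

end Pool.Agent.W943.Cut
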