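import Mathlib
import Pool.Agent.W943.Cut.C2

/-!
Read-once programs of arbitrary width whose layers have small rank.
-/

namespace Pool.Agent.W943.Cut

open MvPolynomial Pool.Agent.H530R2 Pool.Agent.W943

section prog

variable {n W : ℕ}

/-- the layer `(i, M)` has rank at most `e` -/
def LayerOK (e : ℕ) (p : Fin n × Matrix (Fin W) (Fin W) (MvPolynomial (Fin n) ℂ)) : Prop :=
  ∃ (A : Fin W → Fin W → ℂ) (P : Fin W → Fin e → ℂ) (R : Fin e → Fin W → MvPolynomial (Fin n) ℂ),
    (∀ j b, R j b ∈ supported ℂ ({p.1} : Set (Fin n))) ∧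
    ∀ a b, p.2 a b = C (A a b) + ∑ j, C (P a j) * R j b

theorem LayerOK.supp {e : ℕ} {p : Fin n × Matrix (Fin W) (Fin W) (MvPolynomial (Fin n) ℂ)}
    (h : LayerOK e p) (a b : Fin W) : p.2 a b ∈ supported ℂ ({p.1} : Set (Fin n)) := by
  obtain ⟨A, P, R, hR, hM⟩ := h
  rw [hM]
  exact Subalgebra.add_mem _ (Subalgebra.algebraMap_mem _ _)
    (Subalgebra.sum_mem _ fun j _ => Subalgebra.mul_mem _ (Subalgebra.algebraMap_mem _ _) (hR j b))

theorem LayerOK.absorb {e : ℕ} {i : Fin n} {M : Matrix (Fin W) (Fin W) (MvPolynomial (Fin n) ℂ)}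
    (h : LayerOK e (i, M)) (K : Fin W → Fin W → ℂ) :
    LayerOK e (i, Matrix.of fun a b => ∑ c, C (K a c) * M c b) := by
  obtain ⟨A, P, R, hR, hM⟩ := h
  refine ⟨fun a b => ∑ c, K a c * A c b, fun a j => ∑ c, K a c * P c j, R, hR, fun a b => ?_⟩
  have hM' : ∀ c, M c b = C (A c b) + ∑ j, C (P c j) * R j b := fun c => hM c b
  simp only [Matrix.of_apply, hM', mul_add, Finset.sum_add_distrib, map_sum, map_mul,
    Finset.mul_sum, Finset.sum_mul]
  congr 1
  rw [Finset.sum_comm]
  refine Finset.sum_congr rfl fun j _ => Finset.sum_congr rfl fun c _ => by ring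

/-- A layer whose variable is inessential can be removed. -/
theorem value_remove {e : ℕ} {L₁ L₂ : List (Fin n × Matrix (Fin W) (Fin W)
      (MvPolynomial (Fin n) ℂ))} {i : Fin n} {M : Matrix (Fin W) (Fin W) (MvPolynomial (Fin n) ℂ)}
    (hd1 : (L₁.map Prod.fst).Nodup) (hd2 : (L₂.map Prod.fst).Nodup)
    (hd : ∀ k ∈ L₁.map Prod.fst, k ∉ L₂.map Prod.fst)
    (hn1 : i ∉ L₁.map Prod.fst) (hn2 : i ∉ L₂.map Prod.fst)
    (hok1 : ∀ q ∈ L₁, LayerOK e q) (hok2 : ∀ q ∈ L₂, LayerOK e q) (hok : LayerOK e (i, M))
    (u v : Fin W → ℂ) (h0 : pderiv i (value u (L₁ ++ (i, M) :: L₂) v) = 0) :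
    ∃ (L : List (Fin n × Matrix (Fin W) (Fin W) (MvPolynomial (Fin n) ℂ))) (v' : Fin W → ℂ),
      (L.map Prod.fst).Nodup ∧ (∀ q ∈ L, LayerOK e q) ∧ L.length = L₁.length + L₂.length ∧
      value u (L₁ ++ (i, M) :: L₂) v = value u L v' := by
  have hval := value_ev0 (fun q hq => (hok1 q hq).supp) (fun q hq => (hok2 q hq).supp)
    hok.supp hn1 hn2 u v h0
  cases L₂ with
  | nil =>
    refine ⟨L₁, fun a => ∑ b, eval 0 (M a b) * v b, hd1, hok1, by simp, ?_⟩
    rw [hval, value_eq_row]
    refine Finset.sum_congr rfl fun a _ => ?_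
    congr 1
    rw [map_sum]
    refine Finset.sum_congr rfl fun b _ => ?_
    rw [map_mul, col_nil]
  | cons q L₂ =>
    obtain ⟨i2, M2⟩ := q
    refine ⟨L₁ ++ (i2, Matrix.of fun a b => ∑ c, C (eval 0 (M a c)) * M2 c b) :: L₂, v,
      ?_, ?_, by simp, ?_⟩
    · rw [List.map_append, List.nodup_append]
      refine ⟨hd1, hd2, ?_⟩
      intro a ha b hb hab
      rw [← hab] at hb
      exact hd a ha hb
    · intro q' hq'
      rcases List.mem_append.1 hq' with h | h
      · exact hok1 q' h
      · rcases List.mem_cons.1 h with rfl | h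
        · exact (hok2 (i2, M2) List.mem_cons_self).absorb fun a c => eval 0 (M a c)
        · exact hok2 q' (List.mem_cons_of_mem _ h)
    · rw [hval, value_append]
      refine Finset.sum_congr rfl fun a _ => ?_
      congr 1
      rw [col_cons]
      simp only [Matrix.of_apply, col_cons, Finset.mul_sum, Finset.sum_mul]
      rw [Finset.sum_comm]
      refine Finset.sum_congr rfl fun j _ => Finset.sum_congr rfl fun c _ => by ring

theorem value_pderiv {e : ℕ} {L₁ L₂ : List (Fin n × Matrix (Fin W) (Fin W)
      (MvPolynomial (Fin n) ℂ))} {i : Fin n} {M : Matrix (Fin W) (Fin W) (MvPolynomial (Fin n) ℂ)}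
    (hs1 : ∀ p ∈ L₁, ∀ a b, p.2 a b ∈ supported ℂ ({p.1} : Set (Fin n)))
    (hs2 : ∀ p ∈ L₂, ∀ a b, p.2 a b ∈ supported ℂ ({p.1} : Set (Fin n)))
    (hn1 : i ∉ L₁.map Prod.fst) (hn2 : i ∉ L₂.map Prod.fst) (u v : Fin W → ℂ)
    (A : Fin W → Fin W → ℂ) (P : Fin W → Fin e → ℂ) (R : Fin e → Fin W → MvPolynomial (Fin n) ℂ)
    (hM : ∀ a b, M a b = C (A a b) + ∑ j, C (P a j) * R j b) :
    pderiv i (value u (L₁ ++ (i, M) :: L₂) v) =
      ∑ j, (∑ a, C (P a j) * row u L₁ a) * ∑ b, pderiv i (R j b) * col L₂ v b := by
  have h1 : ∀ a, pderiv i (row u L₁ a) = 0 := fun a =>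
    pderiv_eq_zero_of_supported (row_supp hs1 u a) hn1
  have h2 : ∀ a, pderiv i (col L₂ v a) = 0 := fun a =>
    pderiv_eq_zero_of_supported (col_supp hs2 v a) hn2
  have h3 : ∀ a b, pderiv i (M a b) = ∑ j, C (P a j) * pderiv i (R j b) := by
    intro a b
    rw [hM, map_add, pderiv_C, zero_add, map_sum]
    exact Finset.sum_congr rfl fun j _ => pderiv_C_mul
  rw [value_append, map_sum]
  have h4 : ∀ a, pderiv i (row u L₁ a * col ((i, M) :: L₂) v a) =
      row u L₁ a * ∑ b, (∑ j, C (P a j) * pderiv i (R j b)) * col L₂ v b := by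
    intro a
    rw [pderiv_mul, h1, zero_mul, zero_add, col_cons, map_sum]
    congr 1
    refine Finset.sum_congr rfl fun b _ => ?_
    rw [pderiv_mul, h2, mul_zero, add_zero, h3]
  simp only [h4, Finset.mul_sum, Finset.sum_mul]
  have h5 : ∀ a : Fin W, ∑ b, ∑ j, row u L₁ a * (C (P a j) * pderiv i (R j b) * col L₂ v b) =
      ∑ j, ∑ b, row u L₁ a * (C (P a j) * pderiv i (R j b) * col L₂ v b) :=
    fun a => Finset.sum_comm
  simp only [h5]
  rw [Finset.sum_comm]
  refine Finset.sum_congr rfl fun j _ => ?_
  rw [Finset.sum_comm]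
  refine Finset.sum_congr rfl fun b _ => Finset.sum_congr rfl fun a _ => by ring

theorem value_base {k : ℕ} {L : List (Fin n × Matrix (Fin W) (Fin W) (MvPolynomial (Fin n) ℂ))}
    (h : ∀ p ∈ L, ∀ a b, p.2 a b ∈ supported ℂ ({p.1} : Set (Fin n))) (u v : Fin W → ℂ)
    (hk : L.length ≤ k) (h0 : value u L v ≠ 0) : Cls n k (value u L v) := by
  classical
  refine Cls.few' (L.map Prod.fst).toFinset ?_ ?_ h0
  · refine (List.toFinset_card_le _).trans ?_
    rw [List.length_map]
    exact hk
  · refine supported_mono ?_ (value_supp h u v)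
    intro i hi
    rw [Finset.mem_coe, List.mem_toFinset]
    exact hi

/-- Read-once programs of width `W` with layers of rank `e`. -/
theorem value_mem {e k : ℕ} (d : ℕ) : ∀ (N : ℕ)
    (L : List (Fin n × Matrix (Fin W) (Fin W) (MvPolynomial (Fin n) ℂ))) (u v : Fin W → ℂ),
    L.length = N → (L.map Prod.fst).Nodup → (∀ p ∈ L, LayerOK e p) → L.length ≤ k * 2 ^ d →
    value u L v ≠ 0 → Cls n (k + min e (W - 1) * d) (value u L v) := by
  induction d with
  | zero =>
    intro N L u v _ _ hok hk h0
    rw [pow_zero, mul_one] at hk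
    rw [mul_zero, add_zero]
    exact value_base (fun p hp => (hok p hp).supp) u v hk h0
  | succ d ihd =>
    intro N
    induction N using Nat.strong_induction_on with
    | _ N ihN =>
    intro L u v hN hnd hok hk h0
    by_cases hsmall : L.length ≤ k * 2 ^ d
    · exact (ihd N L u v hN hnd hok hsmall h0).mono (by
        apply Nat.add_le_add_left
        exact Nat.mul_le_mul_left _ (Nat.le_succ d))
    · push Not at hsmall
      have hpos : 0 < L.length := by omega
      obtain ⟨L₁, p, L₂, rfl, hlen⟩ : ∃ L₁ p L₂, L = L₁ ++ p :: L₂ ∧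
          L₁.length = L.length / 2 := by
        have hlt : L.length / 2 < L.length := Nat.div_lt_self hpos (by norm_num)
        refine ⟨L.take (L.length / 2), L[L.length / 2], L.drop (L.length / 2 + 1), ?_, ?_⟩
        · rw [← List.drop_eq_getElem_cons hlt, List.take_append_drop]
        · rw [List.length_take]
          omega
      obtain ⟨i, M⟩ := p
      rw [List.length_append, List.length_cons] at hlen hN hk
      rw [pow_succ] at hk
      have hl1 : L₁.length ≤ k * 2 ^ d := by
        have : k * (2 ^ d * 2) = 2 * (k * 2 ^ d) := by ring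
        omega
      have hl2 : L₂.length + 1 ≤ k * 2 ^ d := by
        have : k * (2 ^ d * 2) = 2 * (k * 2 ^ d) := by ring
        omega
      rw [List.map_append, List.map_cons, List.nodup_append] at hnd
      obtain ⟨hd1, hd2', hd⟩ := hnd
      have hn2 : i ∉ L₂.map Prod.fst := (List.nodup_cons.1 hd2').1
      have hd2 : (L₂.map Prod.fst).Nodup := (List.nodup_cons.1 hd2').2
      have hn1 : i ∉ L₁.map Prod.fst := fun h => hd i h i List.mem_cons_self rfl
      have hok1 : ∀ q ∈ L₁, LayerOK e q := fun q hq => hok q (List.mem_append_left _ hq)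
      have hok2' : ∀ q ∈ (i, M) :: L₂, LayerOK e q := fun q hq =>
        hok q (List.mem_append_right _ hq)
      have hok2 : ∀ q ∈ L₂, LayerOK e q := fun q hq => hok2' q (List.mem_cons_of_mem _ hq)
      have hokM : LayerOK e (i, M) := hok2' _ List.mem_cons_self
      have hdis : ∀ k ∈ L₁.map Prod.fst, k ∉ L₂.map Prod.fst := fun k hk hk2 =>
        hd k hk k (List.mem_cons_of_mem _ hk2) rfl
      have hs1 : ∀ p ∈ L₁, ∀ a b, p.2 a b ∈ supported ℂ ({p.1} : Set (Fin n)) :=
        fun q hq => (hok1 q hq).supp
      have hs2 : ∀ p ∈ L₂, ∀ a b, p.2 a b ∈ supported ℂ ({p.1} : Set (Fin n)) :=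
        fun q hq => (hok2 q hq).supp
      have hs2' : ∀ p ∈ (i, M) :: L₂, ∀ a b, p.2 a b ∈ supported ℂ ({p.1} : Set (Fin n)) :=
        fun q hq => (hok2' q hq).supp
      rcases le_or_gt (W - 1) e with hWe | hWe
      · rw [min_eq_right hWe] at ihd ⊢
        rw [value_append] at h0 ⊢
        have h1 := Cls.cutSpan (s := k + (W - 1) * d) {i | i ∈ L₁.map Prod.fst}
          (fun a => row u L₁ a) (fun a => col ((i, M) :: L₂) v a)
          (fun a => row_supp hs1 u a) (fun a => ?_) ?_ ?_ h0
        · refine h1.mono ?_
          rw [mul_add, mul_one]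
          omega
        · refine supported_mono ?_ (col_supp hs2' v a)
          intro k hk hk1
          exact hd k hk1 k hk rfl
        · intro c hc
          have h2 : ∑ a, C (c a) * row u L₁ a = value u L₁ c := by
            rw [value_eq_row]
            exact Finset.sum_congr rfl fun a _ => mul_comm _ _
          rw [h2] at hc ⊢
          exact ihd _ L₁ u c rfl hd1 hok1 hl1 hc
        · intro c hc
          exact ihd _ ((i, M) :: L₂) c v rfl hd2' hok2' (by rw [List.length_cons]; exact hl2) hc
      · rw [min_eq_left hWe.le] at ihd ihN ⊢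
        by_cases hD : pderiv i (value u (L₁ ++ (i, M) :: L₂) v) = 0
        · obtain ⟨L, v', hL1, hL2, hL3, hL4⟩ := value_remove hd1 hd2 hdis hn1 hn2 hok1 hok2
            hokM u v hD
          rw [hL4] at h0 ⊢
          refine ihN (L₁.length + L₂.length) (by omega) L u v' hL3 hL1 hL2 ?_ h0
          rw [hL3, pow_succ]
          omega
        · obtain ⟨A, P, R, hR, hM⟩ := hokM
          have hform := value_pderiv hs1 hs2 hn1 hn2 u v A P R hM
          have he : 0 < e := by
            rcases Nat.eq_zero_or_pos e with he | he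
            · subst he
              exfalso
              apply hD
              rw [hform]
              simp
            · exact he
          have hform0 := hD
          rw [hform] at hform0
          have h1 := Cls.cutSpan (s := k + e * d) {i | i ∈ L₁.map Prod.fst}
            (fun j => ∑ a, C (P a j) * row u L₁ a)
            (fun j => ∑ b, pderiv i (R j b) * col L₂ v b)
            (fun j => Subalgebra.sum_mem _ fun a _ => Subalgebra.mul_mem _
              (Subalgebra.algebraMap_mem _ _) (row_supp hs1 u a)) (fun j => ?_) ?_ ?_ hform0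
          · rw [← hform] at h1
            refine h1.pderiv'.mono ?_
            rw [mul_add, mul_one]
            omega
          · refine Subalgebra.sum_mem _ fun b _ => Subalgebra.mul_mem _ ?_ ?_
            · refine supported_mono ?_ (pderiv_mem_supported i (hR j b))
              intro k hk hk1
              rw [Set.mem_singleton_iff] at hk
              rw [hk] at hk1
              exact hn1 hk1
            · refine supported_mono ?_ (col_supp hs2 v b)
              intro k hk hk1
              exact hdis k hk1 hk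
          · intro c hc
            have h2 : ∑ j, C (c j) * ∑ a, C (P a j) * row u L₁ a =
                value u L₁ (fun a => ∑ j, P a j * c j) := by
              rw [value_eq_row]
              simp only [Finset.mul_sum, map_sum]
              rw [Finset.sum_comm]
              refine Finset.sum_congr rfl fun a _ => Finset.sum_congr rfl fun j _ => ?_
              rw [map_mul]
              ring
            rw [h2] at hc ⊢
            exact ihd _ L₁ u _ rfl hd1 hok1 hl1 hc
          · intro c hc
            have hW : 0 < W := by omega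
            have h2 : ∑ j, C (c j) * ∑ b, pderiv i (R j b) * col L₂ v b =
                value (Pi.single ⟨0, hW⟩ 1)
                  ((i, Matrix.of fun a b => ∑ j, C (c j) * pderiv i (R j b)) :: L₂) v := by
              unfold value
              symm
              rw [Finset.sum_eq_single (⟨0, hW⟩ : Fin W)]
              · rw [Pi.single_eq_same, map_one, one_mul, col_cons]
                simp only [Matrix.of_apply, Finset.mul_sum, Finset.sum_mul]
                rw [Finset.sum_comm]
                refine Finset.sum_congr rfl fun a _ => Finset.sum_congr rfl fun j _ => by ring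
              · intro b _ hb
                rw [Pi.single_eq_of_ne hb, map_zero, zero_mul]
              · intro h; exact absurd (Finset.mem_univ _) h
            rw [h2] at hc ⊢
            refine ihd _ _ _ v rfl ?_ ?_ (by rw [List.length_cons]; exact hl2) hc
            · rw [List.map_cons]
              exact hd2'
            · intro q hq
              rcases List.mem_cons.1 hq with rfl | hq
              · refine ⟨fun _ _ => 0, fun _ j => c j, fun j b => pderiv i (R j b),
                  fun j b => pderiv_mem_supported i (hR j b), fun a b => ?_⟩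
                simp
              · exact hok2 q hq

end prog

end Pool.Agent.W943.Cut
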