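import Mathlib

/-!
# Tree networks and circuits in layers
-/

namespace Pool.Agent.W943.Cut

open MvPolynomial

/-- Tree tensor networks of bond dimension `W` in `n` variables: the leaves are pinned to constant
vectors, and each node carries a set `S` of variables and a `W × W × W` array `T` of
polynomials. -/
inductive Net (n W : ℕ) : Type
  | pin (c : Fin W → ℂ) : Net n W
  | node (S : Finset (Fin n)) (T : Fin W → Fin W → Fin W → MvPolynomial (Fin n) ℂ)
      (l r : Net n W) : Net n W

/-- The vector computed by a network. -/
noncomputable def Net.val {n W : ℕ} : Net n W → Fin W → MvPolynomial (Fin n) ℂ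
  | .pin c => fun a => C (c a)
  | .node _ T l r => fun a => ∑ b, ∑ c, T a b c * l.val b * r.val c

/-- The value of a linear functional on the vector computed by a network. -/
noncomputable def Net.out {n W : ℕ} (t : Net n W) (c : Fin W → ℂ) : MvPolynomial (Fin n) ℂ :=
  ∑ a, C (c a) * t.val a

/-- The variables of a network. -/
def Net.reads {n W : ℕ} : Net n W → Finset (Fin n)
  | .pin _ => ∅
  | .node S _ l r => S ∪ (l.reads ∪ r.reads)

/-- The number of nodes. -/
def Net.size {n W : ℕ} : Net n W → ℕ
  | .pin _ => 0
  | .node _ _ l r => 1 + (l.size + r.size)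

/-- Each variable occurs in one node only. -/
def Net.Once {n W : ℕ} : Net n W → Prop
  | .pin _ => True
  | .node S T l r => (∀ a b c, T a b c ∈ supported ℂ (S : Set (Fin n))) ∧
      Disjoint S (l.reads ∪ r.reads) ∧ Disjoint l.reads r.reads ∧ l.Once ∧ r.Once

/-- Each node reads at most one variable. -/
def Net.Single {n W : ℕ} : Net n W → Prop
  | .pin _ => True
  | .node S _ l r => S.card ≤ 1 ∧ l.Single ∧ r.Single

/-- The array of each node is a sum over its variables `x_i` of `x_i` times an array of rank
one. -/
def Net.RankOne {n W : ℕ} : Net n W → Prop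
  | .pin _ => True
  | .node S T l r => (∃ u p q : Fin n → Fin W → ℂ,
      ∀ a b c, T a b c = ∑ i ∈ S, C (u i a * p i b * q i c) * X i) ∧ l.RankOne ∧ r.RankOne

/-- Circuits in layers over `n` variables with `W` gates in each layer: the gates of layer `0` are
polynomials of degree at most one, each gate of a further layer is a linear combination of products
of two gates of the layer before. -/
inductive Layered (n W : ℕ) : ℕ → (Fin W → MvPolynomial (Fin n) ℂ) → Prop
  | base (g : Fin W → MvPolynomial (Fin n) ℂ) (h : ∀ a, (g a).totalDegree ≤ 1) : Layered n W 0 g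
  | step {Δ : ℕ} {g : Fin W → MvPolynomial (Fin n) ℂ} (T : Fin W → Fin W → Fin W → ℂ)
      (h : Layered n W Δ g) :
      Layered n W (Δ + 1) (fun a => ∑ b, ∑ c, C (T a b c) * (g b * g c))

end Pool.Agent.W943.Cut
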