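import Mathlib
import Pool.Agent.W943.Cut.C3
import Pool.Agent.W943.Cut.DefN

/-!
Tree tensor networks.
-/

namespace Pool.Agent.W943.Cut

open MvPolynomial Pool.Agent.H530R2 Pool.Agent.W943

variable {n W : ℕ}

/-- networks with a hole -/
inductive Ctx (n W : ℕ) : Type
  | hole : Ctx n W
  | left (S : Finset (Fin n)) (T : Fin W → Fin W → Fin W → MvPolynomial (Fin n) ℂ)
      (K : Ctx n W) (r : Net n W) : Ctx n W
  | right (S : Finset (Fin n)) (T : Fin W → Fin W → Fin W → MvPolynomial (Fin n) ℂ)
      (l : Net n W) (K : Ctx n W) : Ctx n W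

/-- filling the hole -/
def Ctx.fill : Ctx n W → Net n W → Net n W
  | .hole, s => s
  | .left S T K r, s => .node S T (K.fill s) r
  | .right S T l K, s => .node S T l (K.fill s)

/-- the variables outside of the hole -/
def Ctx.reads : Ctx n W → Finset (Fin n)
  | .hole => ∅
  | .left S _ K r => S ∪ (K.reads ∪ r.reads)
  | .right S _ l K => S ∪ (l.reads ∪ K.reads)

theorem reads_fill (K : Ctx n W) (s : Net n W) : (K.fill s).reads = K.reads ∪ s.reads := by
  induction K with
  | hole => simp [Ctx.fill, Ctx.reads]
  | left S T K r ih =>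
    simp only [Ctx.fill, Ctx.reads, Net.reads, ih]
    ext i
    simp only [Finset.mem_union]
    tauto
  | right S T l K ih =>
    simp only [Ctx.fill, Ctx.reads, Net.reads, ih]
    ext i
    simp only [Finset.mem_union]
    tauto

theorem size_fill (K : Ctx n W) (s : Net n W) (c : Fin W → ℂ) :
    (K.fill s).size = (K.fill (.pin c)).size + s.size := by
  induction K with
  | hole => simp [Ctx.fill, Net.size]
  | left S T K r ih =>
    simp only [Ctx.fill, Net.size, ih]
    omega
  | right S T l K ih =>
    simp only [Ctx.fill, Net.size, ih]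
    omega

theorem once_fill (K : Ctx n W) (s : Net n W) (h : (K.fill s).Once) :
    s.Once ∧ Disjoint K.reads s.reads ∧ ∀ c, (K.fill (.pin c)).Once := by
  induction K with
  | hole => exact ⟨h, by simp [Ctx.reads], fun c => trivial⟩
  | left S T K r ih =>
    obtain ⟨h1, h2, h3, h4, h5⟩ := h
    obtain ⟨i1, i2, i3⟩ := ih h4
    rw [reads_fill] at h2 h3
    rw [Finset.disjoint_union_right, Finset.disjoint_union_right] at h2
    rw [Finset.disjoint_union_left] at h3
    refine ⟨i1, ?_, fun c => ⟨h1, ?_, ?_, i3 c, h5⟩⟩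
    · rw [Ctx.reads, Finset.disjoint_union_left, Finset.disjoint_union_left]
      exact ⟨h2.1.2, i2, h3.2.symm⟩
    · rw [reads_fill, Finset.disjoint_union_right, Finset.disjoint_union_right]
      exact ⟨⟨h2.1.1, by simp [Net.reads]⟩, h2.2⟩
    · rw [reads_fill, Finset.disjoint_union_left]
      exact ⟨h3.1, by simp [Net.reads]⟩
  | right S T l K ih =>
    obtain ⟨h1, h2, h3, h4, h5⟩ := h
    obtain ⟨i1, i2, i3⟩ := ih h5
    rw [reads_fill] at h2 h3
    rw [Finset.disjoint_union_right, Finset.disjoint_union_right] at h2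
    rw [Finset.disjoint_union_right] at h3
    refine ⟨i1, ?_, fun c => ⟨h1, ?_, ?_, h4, i3 c⟩⟩
    · rw [Ctx.reads, Finset.disjoint_union_left, Finset.disjoint_union_left]
      exact ⟨h2.2.2, h3.2, i2⟩
    · rw [reads_fill, Finset.disjoint_union_right, Finset.disjoint_union_right]
      exact ⟨h2.1, h2.2.1, by simp [Net.reads]⟩
    · rw [reads_fill, Finset.disjoint_union_right]
      exact ⟨h3.1, by simp [Net.reads]⟩

theorem single_fill (K : Ctx n W) (s : Net n W) (h : (K.fill s).Single) :
    s.Single ∧ ∀ c, (K.fill (.pin c)).Single := by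
  induction K with
  | hole => exact ⟨h, fun c => trivial⟩
  | left S T K r ih => exact ⟨(ih h.2.1).1, fun c => ⟨h.1, (ih h.2.1).2 c, h.2.2⟩⟩
  | right S T l K ih => exact ⟨(ih h.2.2).1, fun c => ⟨h.1, h.2.1, (ih h.2.2).2 c⟩⟩

theorem rankOne_fill (K : Ctx n W) (s : Net n W) (h : (K.fill s).RankOne) :
    s.RankOne ∧ ∀ c, (K.fill (.pin c)).RankOne := by
  induction K with
  | hole => exact ⟨h, fun c => trivial⟩
  | left S T K r ih => exact ⟨(ih h.2.1).1, fun c => ⟨h.1, (ih h.2.1).2 c, h.2.2⟩⟩
  | right S T l K ih => exact ⟨(ih h.2.2).1, fun c => ⟨h.1, h.2.1, (ih h.2.2).2 c⟩⟩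

theorem val_supp (t : Net n W) (h : t.Once) (a : Fin W) :
    t.val a ∈ supported ℂ (t.reads : Set (Fin n)) := by
  induction t generalizing a with
  | pin c => exact Subalgebra.algebraMap_mem _ _
  | node S T l r ihl ihr =>
    obtain ⟨h1, -, -, h4, h5⟩ := h
    have e1 : (S : Set (Fin n)) ⊆ ((Net.node S T l r).reads : Set (Fin n)) := by
      intro i hi
      rw [Finset.mem_coe] at hi ⊢
      exact Finset.mem_union_left _ hi
    have e2 : (l.reads : Set (Fin n)) ⊆ ((Net.node S T l r).reads : Set (Fin n)) := by
      intro i hi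
      rw [Finset.mem_coe] at hi ⊢
      exact Finset.mem_union_right _ (Finset.mem_union_left _ hi)
    have e3 : (r.reads : Set (Fin n)) ⊆ ((Net.node S T l r).reads : Set (Fin n)) := by
      intro i hi
      rw [Finset.mem_coe] at hi ⊢
      exact Finset.mem_union_right _ (Finset.mem_union_right _ hi)
    exact Subalgebra.sum_mem _ fun b _ => Subalgebra.sum_mem _ fun c _ =>
      Subalgebra.mul_mem _ (Subalgebra.mul_mem _ (supported_mono e1 (h1 a b c))
        (supported_mono e2 (ihl h4 b))) (supported_mono e3 (ihr h5 c))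

/-- the matrix of a network with a hole -/
noncomputable def Ctx.mat (K : Ctx n W) (a b : Fin W) : MvPolynomial (Fin n) ℂ :=
  (K.fill (.pin (Pi.single b 1))).val a

theorem val_fill (K : Ctx n W) (s : Net n W) (a : Fin W) :
    (K.fill s).val a = ∑ b, K.mat a b * s.val b := by
  induction K generalizing a with
  | hole =>
    unfold Ctx.mat
    simp only [Ctx.fill, Net.val]
    rw [Finset.sum_eq_single a]
    · rw [Pi.single_eq_same, map_one, one_mul]
    · intro b _ hb
      rw [Pi.single_eq_of_ne hb.symm, map_zero, zero_mul]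
    · intro h; exact absurd (Finset.mem_univ _) h
  | left S T K r ih =>
    have h1 : ∀ b, (Ctx.left S T K r).mat a b = ∑ c, ∑ d, T a c d * K.mat c b * r.val d :=
      fun b => rfl
    simp only [h1]
    show ∑ c, ∑ d, T a c d * (K.fill s).val c * r.val d = _
    simp only [ih, Finset.mul_sum, Finset.sum_mul]
    have h2 : ∀ c : Fin W, ∑ d, ∑ b, T a c d * (K.mat c b * s.val b) * r.val d =
        ∑ b, ∑ d, T a c d * (K.mat c b * s.val b) * r.val d := fun c => Finset.sum_comm
    simp only [h2]
    rw [Finset.sum_comm]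
    refine Finset.sum_congr rfl fun b _ => Finset.sum_congr rfl fun c _ =>
      Finset.sum_congr rfl fun d _ => by ring
  | right S T l K ih =>
    have h1 : ∀ b, (Ctx.right S T l K).mat a b = ∑ c, ∑ d, T a c d * l.val c * K.mat d b :=
      fun b => rfl
    simp only [h1]
    show ∑ c, ∑ d, T a c d * l.val c * (K.fill s).val d = _
    simp only [ih, Finset.mul_sum, Finset.sum_mul]
    have h2 : ∀ c : Fin W, ∑ d, ∑ b, T a c d * l.val c * (K.mat d b * s.val b) =
        ∑ b, ∑ d, T a c d * l.val c * (K.mat d b * s.val b) := fun c => Finset.sum_comm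
    simp only [h2]
    rw [Finset.sum_comm]
    refine Finset.sum_congr rfl fun b _ => Finset.sum_congr rfl fun c _ =>
      Finset.sum_congr rfl fun d _ => by ring

theorem mat_supp (K : Ctx n W) (s : Net n W) (h : (K.fill s).Once) (a b : Fin W) :
    K.mat a b ∈ supported ℂ (K.reads : Set (Fin n)) := by
  have h1 := val_supp _ ((once_fill K s h).2.2 (Pi.single b 1)) a
  have h2 : (K.fill (.pin (Pi.single b 1))).reads = K.reads := by
    rw [reads_fill]
    simp [Net.reads]
  rw [h2] at h1
  exact h1

theorem out_fill (K : Ctx n W) (s : Net n W) (μ : Fin W → ℂ) :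
    (K.fill s).out μ = ∑ b, (∑ a, C (μ a) * K.mat a b) * s.val b := by
  unfold Net.out
  simp only [val_fill, Finset.mul_sum, Finset.sum_mul]
  rw [Finset.sum_comm]
  refine Finset.sum_congr rfl fun b _ => Finset.sum_congr rfl fun a _ => by ring

theorem out_fill_pin (K : Ctx n W) (c μ : Fin W → ℂ) :
    (K.fill (.pin c)).out μ = ∑ b, C (c b) * ∑ a, C (μ a) * K.mat a b := by
  rw [out_fill]
  exact Finset.sum_congr rfl fun b _ => mul_comm _ _

theorem out_supp (t : Net n W) (h : t.Once) (μ : Fin W → ℂ) :
    t.out μ ∈ supported ℂ (t.reads : Set (Fin n)) :=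
  Subalgebra.sum_mem _ fun a _ => Subalgebra.mul_mem _ (Subalgebra.algebraMap_mem _ _)
    (val_supp t h a)

/-- a balanced edge -/
theorem balanced_edge (q : ℕ) : ∀ t : Net n W, t.Once → t.Single → 2 * q + 1 < 3 * t.reads.card →
    ∃ K s, t = Ctx.fill K s ∧ q ≤ 3 * s.reads.card ∧ 3 * s.reads.card ≤ 2 * q + 1 := by
  intro t
  induction t with
  | pin c =>
    intro _ _ h
    simp [Net.reads] at h
  | node S T l r ihl ihr =>
    intro ho hs h
    obtain ⟨-, -, -, h4, h5⟩ := ho
    obtain ⟨s1, s2, s3⟩ := hs
    have hcard : (Net.node S T l r).reads.card ≤ 1 + (l.reads.card + r.reads.card) := by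
      refine (Finset.card_union_le _ _).trans ?_
      exact Nat.add_le_add s1 (Finset.card_union_le _ _)
    rcases le_total r.reads.card l.reads.card with hlr | hlr
    · have h6 : q ≤ 3 * l.reads.card := by omega
      by_cases h7 : 3 * l.reads.card ≤ 2 * q + 1
      · exact ⟨.left S T .hole r, l, rfl, h6, h7⟩
      · obtain ⟨K, s, e1, e2, e3⟩ := ihl h4 s2 (by omega)
        exact ⟨.left S T K r, s, by rw [Ctx.fill, ← e1], e2, e3⟩
    · have h6 : q ≤ 3 * r.reads.card := by omega
      by_cases h7 : 3 * r.reads.card ≤ 2 * q + 1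
      · exact ⟨.right S T l .hole, r, rfl, h6, h7⟩
      · obtain ⟨K, s, e1, e2, e3⟩ := ihr h5 s3 (by omega)
        exact ⟨.right S T l K, s, by rw [Ctx.fill, ← e1], e2, e3⟩

/-- a node all of whose three branches are small -/
theorem centroid (N : ℕ) (hN : 0 < N) : ∀ t : Net n W, N ≤ 2 * t.size →
    ∃ K S T l r, t = Ctx.fill K (.node S T l r) ∧ N ≤ 2 * (Net.node S T l r).size ∧
      2 * l.size < N ∧ 2 * r.size < N := by
  intro t
  induction t with
  | pin c =>
    intro h
    simp only [Net.size] at h
    omega
  | node S T l r ihl ihr =>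
    intro h
    by_cases hl : N ≤ 2 * l.size
    · obtain ⟨K, S', T', l', r', e1, e2, e3, e4⟩ := ihl hl
      exact ⟨.left S T K r, S', T', l', r', by rw [Ctx.fill, ← e1], e2, e3, e4⟩
    · by_cases hr : N ≤ 2 * r.size
      · obtain ⟨K, S', T', l', r', e1, e2, e3, e4⟩ := ihr hr
        exact ⟨.right S T l K, S', T', l', r', by rw [Ctx.fill, ← e1], e2, e3, e4⟩
      · exact ⟨.hole, S, T, l, r, rfl, h, by omega, by omega⟩

/-- Tree tensor networks of bond dimension `W`. -/
theorem net_mem {k : ℕ} (d : ℕ) : ∀ (t : Net n W) (μ : Fin W → ℂ), t.Once → t.Single →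
    t.reads.card * 2 ^ d ≤ k * 3 ^ d + 2 ^ d - 1 → t.out μ ≠ 0 →
    Cls n (k + (W - 1) * d) (t.out μ) := by
  induction d with
  | zero =>
    intro t μ ho _ hk h0
    rw [mul_zero, add_zero]
    exact Cls.few' t.reads (by simpa using hk) (out_supp t ho μ) h0
  | succ d ih =>
    intro t μ ho hs hk h0
    by_cases hsmall : t.reads.card ≤ 1
    · rcases Nat.eq_zero_or_pos k with hk0 | hk0
      · subst hk0
        have h1 : t.reads.card = 0 := by
          by_contra hne
          have h2 : t.reads.card = 1 := by omega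
          rw [h2, zero_mul, zero_add, one_mul] at hk
          have : 0 < 2 ^ (d + 1) := by positivity
          omega
        refine (Cls.few' t.reads (k := 0) (by omega) (out_supp t ho μ) h0).mono (by omega)
      · exact (Cls.few' t.reads (k := 1) hsmall (out_supp t ho μ) h0).mono (by omega)
    · obtain ⟨K, s, rfl, e2, e3⟩ := balanced_edge t.reads.card t ho hs (by omega)
      obtain ⟨o1, o2, o3⟩ := once_fill K s ho
      obtain ⟨s1, s2⟩ := single_fill K s hs
      have hcard : (K.fill s).reads.card = K.reads.card + s.reads.card := by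
        rw [reads_fill, Finset.card_union_of_disjoint o2]
      have harith : ∀ p : ℕ, 3 * p ≤ 2 * (K.fill s).reads.card + 1 →
          p * 2 ^ d ≤ k * 3 ^ d + 2 ^ d - 1 := by
        intro p hp
        have h1 : 0 < 2 ^ d := by positivity
        have h2 : 3 * (p * 2 ^ d) ≤ 2 * ((K.fill s).reads.card * 2 ^ d) + 2 ^ d := by
          calc 3 * (p * 2 ^ d) = (3 * p) * 2 ^ d := by ring
            _ ≤ (2 * (K.fill s).reads.card + 1) * 2 ^ d := Nat.mul_le_mul_right _ hp
            _ = _ := by ring
        have h3 : 2 * ((K.fill s).reads.card * 2 ^ d) ≤ 3 * (k * 3 ^ d) + 2 * 2 ^ d - 1 := by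
          have h4 : (K.fill s).reads.card * 2 ^ (d + 1) = 2 * ((K.fill s).reads.card * 2 ^ d) := by
            ring
          have h5 : k * 3 ^ (d + 1) = 3 * (k * 3 ^ d) := by ring
          have h6 : 2 ^ (d + 1) = 2 * 2 ^ d := by ring
          rw [h4, h5, h6] at hk
          exact hk
        omega
      have hcK : 3 * K.reads.card ≤ 2 * (K.fill s).reads.card + 1 := by omega
      have hne := h0
      rw [out_fill] at hne
      have h1 := Cls.cutSpan (s := k + (W - 1) * d) (K.reads : Set (Fin n))
        (fun b => ∑ a, C (μ a) * K.mat a b) (fun b => s.val b)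
        (fun b => Subalgebra.sum_mem _ fun a _ => Subalgebra.mul_mem _
          (Subalgebra.algebraMap_mem _ _) (mat_supp K s ho a b)) (fun b => ?_) ?_ ?_ hne
      · rw [← out_fill] at h1
        refine h1.mono ?_
        rw [mul_add, mul_one]
        omega
      · refine supported_mono ?_ (val_supp s o1 b)
        intro i hi hiK
        rw [Finset.mem_coe] at hi hiK
        exact Finset.disjoint_left.1 o2 hiK hi
      · intro c hc
        rw [← out_fill_pin] at hc ⊢
        refine ih _ μ (o3 c) (s2 c) ?_ hc
        apply harith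
        rw [reads_fill K (.pin c)]
        simpa [Net.reads] using hcK
      · intro c hc
        exact ih s c o1 s1 (harith _ e3) hc

/-- Tree networks whose arrays are sums of variables times arrays of rank one. -/
theorem rankOne_mem (d : ℕ) : ∀ (t : Net n W) (μ : Fin W → ℂ), t.Once → t.RankOne →
    t.size < 2 ^ d → t.out μ ≠ 0 → Cls n d (t.out μ) := by
  induction d with
  | zero =>
    intro t μ ho _ hk h0
    have h1 : t.size = 0 := by simpa using hk
    cases t with
    | pin c =>
      refine Cls.few' ∅ (by simp) ?_ h0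
      have := out_supp (Net.pin c : Net n W) trivial μ
      simpa [Net.reads] using this
    | node S T l r => simp [Net.size] at h1
  | succ d ih =>
    intro t μ ho hr hk h0
    rcases Nat.eq_zero_or_pos t.size with hz | hpos
    · exact (ih t μ ho hr (by rw [hz]; positivity) h0).mono (Nat.le_succ d)
    · obtain ⟨K, S, T, l, r, rfl, e2, e3, e4⟩ := centroid t.size hpos t (by omega)
      obtain ⟨o1, o2, o3⟩ := once_fill K _ ho
      obtain ⟨r1, r2⟩ := rankOne_fill K _ hr
      obtain ⟨p1, p2, p3, p4, p5⟩ := o1
      obtain ⟨⟨u, p, q, hT⟩, r3, r4⟩ := r1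
      rw [pow_succ] at hk
      have hsz := size_fill K (.node S T l r)
      -- the three factors
      set A : Fin n → MvPolynomial (Fin n) ℂ := fun i => (K.fill (.pin (u i))).out μ with hA
      set B : Fin n → MvPolynomial (Fin n) ℂ := fun i => l.out (p i) with hB
      set E : Fin n → MvPolynomial (Fin n) ℂ := fun i => r.out (q i) with hE
      have hform : (K.fill (.node S T l r)).out μ = ∑ i ∈ S, X i * (A i * (B i * E i)) := by
        rw [out_fill]
        have h1 : ∀ b, (Net.node S T l r).val b =
            ∑ i ∈ S, X i * (C (u i b) * (B i * E i)) := by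
          intro b
          show ∑ c, ∑ e, T b c e * l.val c * r.val e = _
          simp only [hT, Finset.sum_mul]
          have h2 : ∀ c : Fin W, ∑ e, ∑ i ∈ S, C (u i b * p i c * q i e) * X i * l.val c *
              r.val e = ∑ i ∈ S, ∑ e, C (u i b * p i c * q i e) * X i * l.val c * r.val e :=
            fun c => Finset.sum_comm
          simp only [h2]
          rw [Finset.sum_comm]
          refine Finset.sum_congr rfl fun i _ => ?_
          rw [hB, hE]
          unfold Net.out
          rw [Finset.sum_mul_sum]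
          simp only [Finset.mul_sum]
          refine Finset.sum_congr rfl fun c _ => Finset.sum_congr rfl fun e _ => ?_
          rw [map_mul, map_mul]
          ring
        simp only [h1, Finset.mul_sum]
        rw [Finset.sum_comm]
        refine Finset.sum_congr rfl fun i _ => ?_
        rw [hA]
        simp only
        rw [out_fill_pin, Finset.sum_mul, Finset.mul_sum]
        refine Finset.sum_congr rfl fun b _ => ?_
        ring
      have hSK : Disjoint S K.reads := by
        rw [Finset.disjoint_left]
        intro i hi hiK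
        exact Finset.disjoint_left.1 o2 hiK (Finset.mem_union_left _ hi)
      rw [Finset.disjoint_union_right] at p2
      have hAs : ∀ i j, j ∈ S → pderiv j (A i) = 0 := by
        intro i j hj
        refine pderiv_eq_zero_of_supported (out_supp _ (o3 _) μ) ?_
        rw [Finset.mem_coe, reads_fill]
        simp only [Net.reads, Finset.union_empty]
        exact Finset.disjoint_left.1 hSK hj
      have hBs : ∀ i j, j ∈ S → pderiv j (B i) = 0 := by
        intro i j hj
        refine pderiv_eq_zero_of_supported (out_supp _ p4 _) ?_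
        exact Finset.disjoint_left.1 p2.1 hj
      have hEs : ∀ i j, j ∈ S → pderiv j (E i) = 0 := by
        intro i j hj
        refine pderiv_eq_zero_of_supported (out_supp _ p5 _) ?_
        exact Finset.disjoint_left.1 p2.2 hj
      have hder : ∀ j ∈ S, pderiv j ((K.fill (.node S T l r)).out μ) = A j * (B j * E j) := by
        intro j hj
        rw [hform, map_sum, Finset.sum_eq_single j]
        · rw [pderiv_mul, pderiv_X_self, one_mul, pderiv_mul, pderiv_mul, hAs j j hj,
            hBs j j hj, hEs j j hj]
          ring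
        · intro i _ hij
          rw [pderiv_mul, pderiv_X_of_ne hij, zero_mul, pderiv_mul, pderiv_mul, hAs i j hj,
            hBs i j hj, hEs i j hj]
          ring
        · intro h; exact absurd hj h
      obtain ⟨j, hj, hj0⟩ : ∃ j ∈ S, A j * (B j * E j) ≠ 0 := by
        by_contra hcon
        push Not at hcon
        apply h0
        rw [hform]
        refine Finset.sum_eq_zero fun i hi => ?_
        rw [hcon i hi, mul_zero]
      have hA0 : A j ≠ 0 := left_ne_zero_of_mul hj0
      have hB0 : B j ≠ 0 := left_ne_zero_of_mul (right_ne_zero_of_mul hj0)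
      have hE0 : E j ≠ 0 := right_ne_zero_of_mul (right_ne_zero_of_mul hj0)
      apply Cls.pderiv' j
      rw [hder j hj]
      refine Cls.mul (ih _ _ (o3 _) (r2 _) ?_ hA0) (Cls.mul (ih _ _ p4 r3 ?_ hB0)
        (ih _ _ p5 r4 ?_ hE0))
      · have := hsz (u j)
        omega
      · omega
      · omega

end Pool.Agent.W943.Cut
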