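import Mathlib
import Pool.Agent.W943.Cut.C3

/-!
Programs with few singular layers, and layers of small rank.
-/

namespace Pool.Agent.W943.Cut

open MvPolynomial Pool.Agent.H530R2 Pool.Agent.W943

section sing

variable {n W : ℕ}

theorem toMv_append (L₁ L₂ : List (Fin n × Matrix (Fin W) (Fin W) (Polynomial ℂ))) :
    toMv (L₁ ++ L₂) = toMv L₁ ++ toMv L₂ := by
  unfold toMv
  rw [List.map_append]

theorem singular_append (L₁ L₂ : List (Fin n × Matrix (Fin W) (Fin W) (Polynomial ℂ))) :
    singular (L₁ ++ L₂) = singular L₁ + singular L₂ := by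
  classical
  unfold singular
  rw [List.countP_append]

theorem singular_cons_le (p : Fin n × Matrix (Fin W) (Fin W) (Polynomial ℂ))
    (L : List (Fin n × Matrix (Fin W) (Fin W) (Polynomial ℂ))) :
    singular L ≤ singular (p :: L) := by
  classical
  unfold singular
  rw [List.countP_cons]
  omega

theorem singular_tail_le (L : List (Fin n × Matrix (Fin W) (Fin W) (Polynomial ℂ))) :
    singular L.tail ≤ singular L := by
  cases L with
  | nil => exact le_rfl
  | cons p L => exact singular_cons_le p L

theorem ne_zero_of_singular {L : List (Fin n × Matrix (Fin W) (Fin W) (Polynomial ℂ))}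
    (h : singular L = 0) : ∀ p ∈ L, p.2.det ≠ 0 := by
  classical
  unfold singular at h
  rw [List.countP_eq_zero] at h
  intro p hp h0
  exact h p hp (by simp [h0])

theorem singular_split (T : List (Fin n × Matrix (Fin W) (Fin W) (Polynomial ℂ))) :
    ∀ m : ℕ, m < singular T → ∃ T₁ q T₂, T = T₁ ++ q :: T₂ ∧ singular T₁ = m ∧
      singular T = m + 1 + singular T₂ := by
  classical
  induction T with
  | nil =>
    intro m hm
    simp [singular] at hm
  | cons p T ih =>
    intro m hm
    by_cases hp : p.2.det = 0
    · have h1 : singular (p :: T) = singular T + 1 := by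
        unfold singular
        rw [List.countP_cons_of_pos (by simp [hp])]
      rcases Nat.eq_zero_or_pos m with hm0 | hm0
      · subst hm0
        refine ⟨[], p, T, rfl, by simp [singular], ?_⟩
        rw [h1]; ring
      · obtain ⟨m', rfl⟩ : ∃ m', m = m' + 1 := ⟨m - 1, by omega⟩
        obtain ⟨T₁, q, T₂, e1, e2, e3⟩ := ih m' (by omega)
        refine ⟨p :: T₁, q, T₂, by rw [e1]; rfl, ?_, by omega⟩
        have h2 : singular (p :: T₁) = singular T₁ + 1 := by
          unfold singular
          rw [List.countP_cons_of_pos (by simp [hp])]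
        rw [h2, e2]
    · have h1 : singular (p :: T) = singular T := by
        unfold singular
        rw [List.countP_cons_of_neg (by simp [hp])]
      obtain ⟨T₁, q, T₂, e1, e2, e3⟩ := ih m (by omega)
      refine ⟨p :: T₁, q, T₂, by rw [e1]; rfl, ?_, by omega⟩
      have h2 : singular (p :: T₁) = singular T₁ := by
        unfold singular
        rw [List.countP_cons_of_neg (by simp [hp])]
      rw [h2, e2]

/-- Read-once programs with few singular layers. -/
theorem singular_mem (d : ℕ) : ∀ (L : List (Fin n × Matrix (Fin W) (Fin W) (Polynomial ℂ)))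
    (u v : Fin W → ℂ), (L.map Prod.fst).Nodup → singular L.tail < 2 ^ d → prog u v L ≠ 0 →
    Cls n (1 + W * (W - 1) / 2 + (W - 1) * d) (prog u v L) := by
  induction d with
  | zero =>
    intro L u v hnd hs h0
    rw [pow_zero, Nat.lt_one_iff] at hs
    rw [mul_zero, add_zero]
    exact Cls.invertible L hnd (ne_zero_of_singular hs) u v h0
  | succ d ih =>
    intro L u v hnd hs h0
    by_cases hsmall : singular L.tail < 2 ^ d
    · exact (ih L u v hnd hsmall h0).mono (by
        apply Nat.add_le_add_left
        exact Nat.mul_le_mul_left _ (Nat.le_succ d))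
    · push Not at hsmall
      have h2d : 0 < 2 ^ d := by positivity
      cases L with
      | nil => simp [singular] at hsmall
      | cons p T =>
        rw [List.tail_cons] at hs hsmall
        obtain ⟨T₁, q, T₂, rfl, e2, e3⟩ := singular_split T (2 ^ d - 1) (by omega)
        rw [pow_succ] at hs
        have hL : p :: (T₁ ++ q :: T₂) = (p :: T₁) ++ (q :: T₂) := rfl
        rw [hL] at hnd h0 ⊢
        rw [List.map_append, List.nodup_append] at hnd
        obtain ⟨hd1, hd2, hd⟩ := hnd
        rw [← value_toMv, toMv_append, value_append] at h0 ⊢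
        have h1 := Cls.cutSpan (s := 1 + W * (W - 1) / 2 + (W - 1) * d)
          {i | i ∈ (p :: T₁).map Prod.fst}
          (fun a => row u (toMv (p :: T₁)) a) (fun a => col (toMv (q :: T₂)) v a)
          (fun a => ?_) (fun a => ?_) ?_ ?_ h0
        · refine h1.mono ?_
          rw [mul_add, mul_one]
          omega
        · have := row_supp (toMv_supp (p :: T₁)) u a
          rw [toMv_fst] at this
          exact this
        · have := col_supp (toMv_supp (q :: T₂)) v a
          rw [toMv_fst] at this
          refine supported_mono ?_ this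
          intro k hk hk1
          exact hd k hk1 k hk rfl
        · intro c hc
          have h2 : ∑ a, C (c a) * row u (toMv (p :: T₁)) a = value u (toMv (p :: T₁)) c := by
            rw [value_eq_row]
            exact Finset.sum_congr rfl fun a _ => mul_comm _ _
          rw [h2, value_toMv] at hc ⊢
          refine ih (p :: T₁) u c hd1 ?_ hc
          rw [List.tail_cons, e2]
          omega
        · intro c hc
          have h2 : ∑ a, C (c a) * col (toMv (q :: T₂)) v a = value c (toMv (q :: T₂)) v := rfl
          rw [h2, value_toMv] at hc ⊢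
          refine ih (q :: T₂) c v hd2 ?_ hc
          rw [List.tail_cons]
          omega

/-- Read-once programs with layers of rank `e`. -/
theorem rank_mem {e k d : ℕ} (L : List (Fin n × Matrix (Fin W) (Fin W) (Polynomial ℂ)))
    (u v : Fin W → ℂ) (hnd : (L.map Prod.fst).Nodup) (hL : ∀ p ∈ L, RankLe e p.2)
    (hk : L.length ≤ k * 2 ^ d) (h0 : prog u v L ≠ 0) :
    Cls n (k + min e (W - 1) * d) (prog u v L) := by
  rw [← value_toMv] at h0 ⊢
  have hlen : (toMv L).length = L.length := by
    unfold toMv
    rw [List.length_map]
  refine value_mem d L.length (toMv L) u v hlen (by rw [toMv_fst]; exact hnd) ?_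
    (by rw [hlen]; exact hk) h0
  intro p hp
  unfold toMv at hp
  obtain ⟨q, hq, rfl⟩ := List.mem_map.1 hp
  obtain ⟨A, P, R, hM⟩ := hL q hq
  refine ⟨A, P, fun j b => Polynomial.aeval (X q.1) (R j b), fun j b => aeval_X_mem q.1 _,
    fun a b => ?_⟩
  show Polynomial.aeval (X q.1 : MvPolynomial (Fin n) ℂ) (q.2 a b) = _
  rw [hM, map_add, map_sum, Polynomial.aeval_C]
  congr 1
  refine Finset.sum_congr rfl fun j _ => ?_
  rw [map_mul, Polynomial.aeval_C]
  rfl

theorem rankLe_self (M : Matrix (Fin W) (Fin W) (Polynomial ℂ)) : RankLe W M := by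
  refine ⟨fun _ _ => 0, fun a j => if a = j then 1 else 0, fun j b => M j b, fun a b => ?_⟩
  rw [Finset.sum_eq_single a]
  · simp
  · intro j _ hj
    simp [Ne.symm hj]
  · intro h; exact absurd (Finset.mem_univ _) h

end sing

end Pool.Agent.W943.Cut
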