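import Mathlib
import Pool.Agent.W943.Cut.DefN

/-!
Universal tree networks.
-/

namespace Pool.Agent.W943.Cut

open MvPolynomial

variable {m m' W : ℕ}

/-- renaming the variables of a network -/
noncomputable def Net.map (ι : Fin m → Fin m') : Net m W → Net m' W
  | .pin c => .pin c
  | .node S T l r => .node (S.image ι) (fun a b c => rename ι (T a b c)) (l.map ι) (r.map ι)

theorem map_val (ι : Fin m → Fin m') (t : Net m W) (a : Fin W) :
    (t.map ι).val a = rename ι (t.val a) := by
  induction t generalizing a with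
  | pin c => simp [Net.map, Net.val]
  | node S T l r ihl ihr =>
    simp only [Net.map, Net.val, map_sum, map_mul, ihl, ihr]

theorem map_reads (ι : Fin m → Fin m') (t : Net m W) :
    (t.map ι).reads = t.reads.image ι := by
  induction t with
  | pin c => simp [Net.map, Net.reads]
  | node S T l r ihl ihr =>
    simp only [Net.map, Net.reads, ihl, ihr, Finset.image_union]

theorem map_size (ι : Fin m → Fin m') (t : Net m W) : (t.map ι).size = t.size := by
  induction t with
  | pin c => rfl
  | node S T l r ihl ihr => simp only [Net.map, Net.size, ihl, ihr]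

theorem map_once (ι : Fin m → Fin m') (hι : Function.Injective ι) (t : Net m W) (h : t.Once) :
    (t.map ι).Once := by
  induction t with
  | pin c => trivial
  | node S T l r ihl ihr =>
    obtain ⟨h1, h2, h3, h4, h5⟩ := h
    refine ⟨fun a b c => ?_, ?_, ?_, ihl h4, ihr h5⟩
    · rw [mem_supported]
      intro i hi
      have h6 : i ∈ (rename ι (T a b c)).vars := hi
      have h7 := vars_rename ι (T a b c) h6
      rw [Finset.mem_coe]
      obtain ⟨k, hk, rfl⟩ := Finset.mem_image.1 h7
      exact Finset.mem_image_of_mem _ ((mem_supported.1 (h1 a b c)) hk)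
    · rw [map_reads, map_reads, ← Finset.image_union]
      exact (Finset.disjoint_image hι).2 h2
    · rw [map_reads, map_reads]
      exact (Finset.disjoint_image hι).2 h3

theorem map_rankOne (ι : Fin m → Fin m') (hι : Function.Injective ι) (t : Net m W)
    (h : t.RankOne) : (t.map ι).RankOne := by
  classical
  induction t with
  | pin c => trivial
  | node S T l r ihl ihr =>
    obtain ⟨⟨u, p, q, hT⟩, h4, h5⟩ := h
    refine ⟨?_, ihl h4, ihr h5⟩
    have hinv : ∀ x : Fin m → Fin W → ℂ, ∃ x' : Fin m' → Fin W → ℂ, ∀ i, x' (ι i) = x i := by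
      intro x
      refine ⟨Function.extend ι x (fun _ _ => 0), fun i => hι.extend_apply _ _ _⟩
    obtain ⟨u', hu⟩ := hinv u
    obtain ⟨p', hp⟩ := hinv p
    obtain ⟨q', hq⟩ := hinv q
    refine ⟨u', p', q', fun a b c => ?_⟩
    show rename ι (T a b c) = _
    rw [hT, map_sum, Finset.sum_image (fun x _ y _ h => hι h)]
    refine Finset.sum_congr rfl fun i _ => ?_
    rw [hu, hp, hq, map_mul, rename_C, rename_X]

/-- the number of variables of the universal network of depth `Δ` -/
def uvars (W : ℕ) : ℕ → ℕ
  | 0 => W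
  | Δ + 1 => W * (W * W) + (uvars W Δ + uvars W Δ)

/-- encoding of triples -/
def enc (a b c : Fin W) : Fin (W * (W * W)) := finProdFinEquiv (a, finProdFinEquiv (b, c))

theorem enc_inj {a b c a' b' c' : Fin W} (h : enc a b c = enc a' b' c') :
    a = a' ∧ b = b' ∧ c = c' := by
  unfold enc at h
  have h1 := finProdFinEquiv.injective h
  rw [Prod.mk.injEq] at h1
  have h2 := finProdFinEquiv.injective h1.2
  rw [Prod.mk.injEq] at h2
  exact ⟨h1.1, h2.1, h2.2⟩

/-- the variable of the entry `(a, b, c)` of the root -/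
def root (W Δ : ℕ) (a b c : Fin W) : Fin (uvars W (Δ + 1)) :=
  Fin.castAdd (uvars W Δ + uvars W Δ) (enc a b c)

/-- the variables of the left subtree -/
def lft (W Δ : ℕ) (i : Fin (uvars W Δ)) : Fin (uvars W (Δ + 1)) :=
  Fin.natAdd (W * (W * W)) (Fin.castAdd (uvars W Δ) i)

/-- the variables of the right subtree -/
def rgt (W Δ : ℕ) (i : Fin (uvars W Δ)) : Fin (uvars W (Δ + 1)) :=
  Fin.natAdd (W * (W * W)) (Fin.natAdd (uvars W Δ) i)

/-- the network of `W` variables -/
noncomputable def ubase (W : ℕ) : Net W W :=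
  .node Finset.univ (fun a _ _ => X a) (.pin fun b => if b.val = 0 then 1 else 0)
    (.pin fun b => if b.val = 0 then 1 else 0)

theorem ubase_once (W : ℕ) : (ubase W).Once := by
  refine ⟨fun a b c => X_mem_supported.2 (by simp), by simp [Net.reads], by simp [Net.reads],
      trivial, trivial⟩

theorem ubase_rankOne (W : ℕ) : (ubase W).RankOne := by
  refine ⟨⟨fun i a => if i = a then 1 else 0, fun _ _ => 1, fun _ _ => 1, fun a b c => ?_⟩,
      trivial, trivial⟩
  show (X a : MvPolynomial (Fin W) ℂ) = ∑ i : Fin W, C ((if i = a then (1 : ℂ) else 0) * 1 * 1) *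
      X i
  rw [Finset.sum_eq_single a]
  · simp
  · intro i _ hi
    simp [hi]
  · intro h; exact absurd (Finset.mem_univ _) h

theorem ubase_val (W : ℕ) (a : Fin W) : (ubase W).val a = X a := by
  have hW : 0 < W := Fin.pos a
  have h1 : ∑ b : Fin W, (C (if b.val = 0 then (1 : ℂ) else 0) : MvPolynomial (Fin W) ℂ) = 1 := by
    rw [Finset.sum_eq_single (⟨0, hW⟩ : Fin W)]
    · simp
    · intro b _ hb
      have : b.val ≠ 0 := fun h => hb (Fin.ext h)
      simp [this]
    · intro h; exact absurd (Finset.mem_univ _) h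
  show ∑ b : Fin W, ∑ c : Fin W, (X a : MvPolynomial (Fin W) ℂ) *
    C (if b.val = 0 then (1 : ℂ) else 0) * C (if c.val = 0 then (1 : ℂ) else 0) = X a
  simp only [← Finset.mul_sum, h1, mul_one]

/-- the universal network of depth `Δ` and width `W` -/
noncomputable def unet (W : ℕ) : (Δ : ℕ) → Net (uvars W Δ) W
  | 0 => ubase W
  | Δ + 1 => .node (Finset.univ.image fun p : Fin W × Fin W × Fin W => root W Δ p.1 p.2.1 p.2.2)
      (fun a b c => X (root W Δ a b c)) ((unet W Δ).map (lft W Δ)) ((unet W Δ).map (rgt W Δ))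

theorem unet_size (W Δ : ℕ) : (unet W Δ).size < 2 ^ (Δ + 1) := by
  induction Δ with
  | zero => simp [unet, ubase, Net.size]
  | succ Δ ih =>
    simp only [unet, Net.size, map_size]
    rw [pow_succ]
    omega

theorem lft_injective (W Δ : ℕ) : Function.Injective (lft W Δ) := by
  intro i j h
  unfold lft at h
  exact Fin.castAdd_injective _ _ (Fin.natAdd_injective _ _ h)

theorem rgt_injective (W Δ : ℕ) : Function.Injective (rgt W Δ) := by
  intro i j h
  unfold rgt at h
  exact Fin.natAdd_injective _ _ (Fin.natAdd_injective _ _ h)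

theorem root_ne_lft (W Δ : ℕ) (a b c : Fin W) (i : Fin (uvars W Δ)) :
    root W Δ a b c ≠ lft W Δ i := by
  intro h
  have h1 := congrArg Fin.val h
  simp only [root, lft, Fin.val_castAdd, Fin.val_natAdd] at h1
  have := (enc a b c).isLt
  omega

theorem root_ne_rgt (W Δ : ℕ) (a b c : Fin W) (i : Fin (uvars W Δ)) :
    root W Δ a b c ≠ rgt W Δ i := by
  intro h
  have h1 := congrArg Fin.val h
  simp only [root, rgt, Fin.val_castAdd, Fin.val_natAdd] at h1
  have := (enc a b c).isLt
  omega

theorem lft_ne_rgt (W Δ : ℕ) (i j : Fin (uvars W Δ)) : lft W Δ i ≠ rgt W Δ j := by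
  intro h
  have h1 := congrArg Fin.val h
  simp only [lft, rgt, Fin.val_castAdd, Fin.val_natAdd] at h1
  have := i.isLt
  omega

theorem root_inj {W Δ : ℕ} {a b c a' b' c' : Fin W} (h : root W Δ a b c = root W Δ a' b' c') :
    a = a' ∧ b = b' ∧ c = c' := enc_inj (Fin.castAdd_injective _ _ h)

theorem unet_once (W Δ : ℕ) : (unet W Δ).Once := by
  classical
  induction Δ with
  | zero => exact ubase_once W
  | succ Δ ih =>
    refine ⟨fun a b c => X_mem_supported.2 ?_, ?_, ?_, map_once _ (lft_injective W Δ) _ ih,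
      map_once _ (rgt_injective W Δ) _ ih⟩
    · rw [Finset.mem_coe]
      exact Finset.mem_image.2 ⟨(a, b, c), Finset.mem_univ _, rfl⟩
    · rw [map_reads, map_reads, Finset.disjoint_left]
      intro i hi hi'
      obtain ⟨p, _, rfl⟩ := Finset.mem_image.1 hi
      rcases Finset.mem_union.1 hi' with h | h
      · obtain ⟨j, _, hj⟩ := Finset.mem_image.1 h
        exact root_ne_lft W Δ _ _ _ j hj.symm
      · obtain ⟨j, _, hj⟩ := Finset.mem_image.1 h
        exact root_ne_rgt W Δ _ _ _ j hj.symm
    · rw [map_reads, map_reads, Finset.disjoint_left]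
      intro i hi hi'
      obtain ⟨j, _, rfl⟩ := Finset.mem_image.1 hi
      obtain ⟨k, _, hk⟩ := Finset.mem_image.1 hi'
      exact lft_ne_rgt W Δ _ _ hk.symm

theorem unet_rankOne (W Δ : ℕ) : (unet W Δ).RankOne := by
  classical
  induction Δ with
  | zero => exact ubase_rankOne W
  | succ Δ ih =>
    refine ⟨⟨fun i a => if ∃ b c, i = root W Δ a b c then 1 else 0,
      fun i b => if ∃ a c, i = root W Δ a b c then 1 else 0,
      fun i c => if ∃ a b, i = root W Δ a b c then 1 else 0, fun a b c => ?_⟩,
      map_rankOne _ (lft_injective W Δ) _ ih, map_rankOne _ (rgt_injective W Δ) _ ih⟩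
    show (X (root W Δ a b c) : MvPolynomial (Fin (uvars W (Δ + 1))) ℂ) =
      ∑ i ∈ Finset.univ.image fun p : Fin W × Fin W × Fin W => root W Δ p.1 p.2.1 p.2.2,
        C ((if ∃ y z, i = root W Δ a y z then (1 : ℂ) else 0) *
          (if ∃ x z, i = root W Δ x b z then (1 : ℂ) else 0) *
          (if ∃ x y, i = root W Δ x y c then (1 : ℂ) else 0)) * X i
    rw [Finset.sum_eq_single (root W Δ a b c)]
    · have h1 : ∃ y z, root W Δ a b c = root W Δ a y z := ⟨b, c, rfl⟩
      have h2 : ∃ x z, root W Δ a b c = root W Δ x b z := ⟨a, c, rfl⟩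
      have h3 : ∃ x y, root W Δ a b c = root W Δ x y c := ⟨a, b, rfl⟩
      rw [if_pos h1, if_pos h2, if_pos h3]
      simp
    · intro i hi hne
      obtain ⟨⟨a', b', c'⟩, _, rfl⟩ := Finset.mem_image.1 hi
      have h1 : (if ∃ y z, root W Δ a' b' c' = root W Δ a y z then (1 : ℂ) else 0) *
          (if ∃ x z, root W Δ a' b' c' = root W Δ x b z then (1 : ℂ) else 0) *
          (if ∃ x y, root W Δ a' b' c' = root W Δ x y c then (1 : ℂ) else 0) = 0 := by
        by_contra hcon
        have h2 : ∃ y z, root W Δ a' b' c' = root W Δ a y z := by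
          by_contra h
          rw [if_neg h] at hcon
          simp at hcon
        have h3 : ∃ x z, root W Δ a' b' c' = root W Δ x b z := by
          by_contra h
          rw [if_neg h] at hcon
          simp at hcon
        have h4 : ∃ x y, root W Δ a' b' c' = root W Δ x y c := by
          by_contra h
          rw [if_neg h] at hcon
          simp at hcon
        obtain ⟨_, _, h2⟩ := h2
        obtain ⟨_, _, h3⟩ := h3
        obtain ⟨_, _, h4⟩ := h4
        apply hne
        rw [(root_inj h2).1, (root_inj h3).2.1, (root_inj h4).2.2]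
      rw [h1, map_zero, zero_mul]
    · intro h
      exact absurd (Finset.mem_image.2 ⟨(a, b, c), Finset.mem_univ _, rfl⟩) h

theorem unet_universal {n W Δ : ℕ} {g : Fin W → MvPolynomial (Fin n) ℂ} (h : Layered n W Δ g) :
    ∃ φ : Fin (uvars W Δ) → MvPolynomial (Fin n) ℂ, (∀ i, (φ i).totalDegree ≤ 1) ∧
      ∀ a, aeval φ ((unet W Δ).val a) = g a := by
  induction h with
  | base g h =>
    refine ⟨g, h, fun a => ?_⟩
    show aeval g ((ubase W).val a) = g a
    rw [ubase_val]
    exact aeval_X g a
  | @step Δ g T h ih =>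
    obtain ⟨φ, hφ, hval⟩ := ih
    set ψ : Fin (uvars W (Δ + 1)) → MvPolynomial (Fin n) ℂ :=
      Fin.addCases (motive := fun _ => MvPolynomial (Fin n) ℂ)
        (fun k => C (T (finProdFinEquiv.symm k).1
          (finProdFinEquiv.symm (finProdFinEquiv.symm k).2).1
          (finProdFinEquiv.symm (finProdFinEquiv.symm k).2).2))
        (Fin.addCases (motive := fun _ => MvPolynomial (Fin n) ℂ) φ φ) with hψ
    have e1 : ∀ a b c, ψ (root W Δ a b c) = C (T a b c) := by
      intro a b c
      rw [hψ]
      unfold root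
      rw [Fin.addCases_left]
      unfold enc
      simp only [Equiv.symm_apply_apply]
    have e2 : ∀ i, ψ (lft W Δ i) = φ i := by
      intro i
      rw [hψ]
      unfold lft
      rw [Fin.addCases_right, Fin.addCases_left]
    have e3 : ∀ i, ψ (rgt W Δ i) = φ i := by
      intro i
      rw [hψ]
      unfold rgt
      rw [Fin.addCases_right, Fin.addCases_right]
    refine ⟨ψ, ?_, fun a => ?_⟩
    · intro i
      refine Fin.addCases (motive := fun i => (ψ i).totalDegree ≤ 1) (fun k => ?_)
        (fun k => Fin.addCases (motive := fun k => (ψ (Fin.natAdd (W * (W * W)) k)).totalDegree ≤ 1)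
          (fun j => ?_) (fun j => ?_) k) i
      · rw [hψ, Fin.addCases_left, totalDegree_C]
        exact Nat.zero_le _
      · have := e2 j
        unfold lft at this
        rw [this]
        exact hφ j
      · have := e3 j
        unfold rgt at this
        rw [this]
        exact hφ j
    · show aeval ψ (∑ b, ∑ c, X (root W Δ a b c) * ((unet W Δ).map (lft W Δ)).val b *
        ((unet W Δ).map (rgt W Δ)).val c) = _
      simp only [map_sum, map_mul, aeval_X, map_val, aeval_rename, e1]
      have f1 : (ψ ∘ lft W Δ) = φ := funext e2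
      have f2 : (ψ ∘ rgt W Δ) = φ := funext e3
      simp only [f1, f2, hval, mul_assoc]

theorem uvars_le (W Δ : ℕ) : uvars W Δ ≤ 2 ^ (Δ + 1) * W ^ 3 := by
  have key : ∀ Δ, uvars W Δ + W ^ 3 ≤ 2 ^ Δ * (2 * W ^ 3) := by
    intro Δ
    induction Δ with
    | zero =>
      simp only [uvars, pow_zero, one_mul]
      have : W ≤ W ^ 3 := Nat.le_self_pow (by norm_num) W
      omega
    | succ Δ ih =>
      simp only [uvars]
      have h1 : W * (W * W) = W ^ 3 := by ring
      have h2 : 2 ^ (Δ + 1) * (2 * W ^ 3) = 2 * (2 ^ Δ * (2 * W ^ 3)) := by ring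
      rw [h1, h2]
      omega
  have := key Δ
  have h3 : 2 ^ (Δ + 1) * W ^ 3 = 2 ^ Δ * (2 * W ^ 3) := by ring
  omega

end Pool.Agent.W943.Cut
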