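import Mathlib
import Pool.Agent.W943.Cut.C4
import Pool.Agent.W943.Cut.C5
import Pool.Agent.W943.Cut.U
import Pool.Agent.H530R2.Hit

/-!
Orbits, products and factors.
-/

namespace Pool.Agent.W943.Cut

open MvPolynomial

theorem Submersive.cls {n m s : ℕ} {φ : Fin m → MvPolynomial (Fin n) ℂ} (h : Submersive φ)
    {F : MvPolynomial (Fin m) ℂ} (hF : Cls m s F) : Cls n s (aeval φ F) := by
  obtain ⟨D, hD⟩ := h
  have h1 := Cls.comp (n := n) hF φ D hD (s := 0) (Cls.low one_ne_zero (by simp))
  rwa [zero_add] at h1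

theorem submersive_affine {n m : ℕ} (A : Fin m → Fin n → ℂ) (b : Fin m → ℂ)
    (hA : LinearIndependent ℂ A) :
    Submersive (fun k => ∑ l, C (A k l) * X l + C (b k) : Fin m → MvPolynomial (Fin n) ℂ) := by
  classical
  have hd : ∀ i : Fin m, ∃ d : Fin n → ℂ, ∀ k, A k ⬝ᵥ d = if i = k then 1 else 0 :=
    fun i => Pool.Agent.H530R2.exists_dual A hA _
  choose d hd using hd
  refine ⟨fun i l => C (d i l), fun i k => ?_⟩
  have h1 : ∀ l, pderiv l (∑ l', C (A k l') * X l' + C (b k) : MvPolynomial (Fin n) ℂ) =
      C (A k l) := by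
    intro l
    rw [map_add, pderiv_C, add_zero, map_sum, Finset.sum_eq_single l]
    · rw [pderiv_C_mul, pderiv_X_self, mul_one]
    · intro l' _ hl'
      rw [pderiv_C_mul, pderiv_X_of_ne hl', mul_zero]
    · intro h; exact absurd (Finset.mem_univ _) h
  simp only [h1, ← map_mul, ← map_sum]
  have h2 : ∑ l, d i l * A k l = if i = k then 1 else 0 := by
    rw [← hd i k, dotProduct]
    exact Finset.sum_congr rfl fun l _ => mul_comm _ _
  rw [h2]
  split_ifs
  · rw [map_one]
  · rw [map_zero]

theorem hit {n s D : ℕ} {f : MvPolynomial (Fin n) ℂ} (hD : f.totalDegree ≤ D)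
    (l : List (MvPolynomial (Fin n) ℂ)) (hl : ∀ g ∈ l, Cls n s g) (hf : f ∣ l.prod) :
    ∃ p ∈ points n s D, MvPolynomial.eval (fun i => (p i : ℂ)) f ≠ 0 := by
  have h1 : Cls n s l.prod := by
    induction l with
    | nil =>
      rw [List.prod_nil]
      exact (Cls.low (d := 0) one_ne_zero (by simp)).mono (Nat.zero_le s)
    | cons g l ih =>
      rw [List.prod_cons]
      have h2 : Cls n s l.prod := by
        clear ih hf
        induction l with
        | nil =>
          rw [List.prod_nil]
          exact (Cls.low (d := 0) one_ne_zero (by simp)).mono (Nat.zero_le s)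
        | cons g' l ih =>
          rw [List.prod_cons]
          refine Cls.mul (hl g' (by simp)) (ih fun q hq => ?_)
          rcases List.mem_cons.1 hq with rfl | hq
          · exact hl _ (by simp)
          · exact hl q (by simp [hq])
      exact Cls.mul (hl g List.mem_cons_self) h2
  exact Pool.Agent.H530R2.exists_hit n s D f hD ((h1.factor hf).notMem
    (Pool.Agent.W943.genChain (fun i : Fin n => ((i.val : ℕ) : ℂ))
      (Pool.Agent.H530R2.nodes_injective n))
    (Pool.Agent.W943.genChain_uni _ _))

end Pool.Agent.W943.Cut
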